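import Pool.Agent.H92.FP.Glue

set_option autoImplicit false

namespace Pool.Agent.H92.FP

open Set Filter Topology

variable {V : Type}

lemma FanDrawing.end_eq {G : SimpleGraph V} {pos : V → ℂ} {arc : V → V → ℝ → ℂ} (h : FanDrawing G pos arc) {a b : V}
    (hab : G.Adj a b) : arc a b 1 = pos b := by
  have h1 := h.rev a b hab 0 (by simp)
  rw [h.start b a hab.symm, sub_zero] at h1
  exact h1.symm

/-- inner points of edges are not vertices -/
lemma FanDrawing.inner_ne {G : SimpleGraph V} {pos : V → ℂ} {arc : V → V → ℝ → ℂ} (h : FanDrawing G pos arc) {a b c : V}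
    (hab : G.Adj a b) {t : ℝ} (ht : t ∈ Ioo (0 : ℝ) 1) : arc a b t ≠ pos c := by
  intro he
  rcases h.avoid a b c hab t (Ioo_subset_Icc_self ht) he with rfl | rfl
  · rw [← h.start c b hab] at he
    exact ht.1.ne' (h.inj _ _ hab (Ioo_subset_Icc_self ht) (by simp) he)
  · rw [← h.end_eq hab] at he
    exact ht.2.ne (h.inj _ _ hab (Ioo_subset_Icc_self ht) (by simp) he)

section reparam

variable [DecidableEq V]

/-- the change of the parameter -/
noncomputable def phi (u : V) (k : ℕ) (a b : V) (t : ℝ) : ℝ :=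
  if a = u then t ^ k else if b = u then 1 - (1 - t) ^ k else t

variable {u : V} {k : ℕ}

lemma phi_zero (hk : 0 < k) (a b : V) : phi u k a b 0 = 0 := by
  unfold phi
  split_ifs <;> simp [hk.ne']

lemma phi_cont (a b : V) : Continuous (phi u k a b) := by
  unfold phi
  split_ifs <;> fun_prop

lemma phi_Icc (a b : V) {t : ℝ} (ht : t ∈ Icc (0 : ℝ) 1) : phi u k a b t ∈ Icc (0 : ℝ) 1 := by
  unfold phi
  split_ifs
  · exact ⟨pow_nonneg ht.1 _, pow_le_one₀ ht.1 ht.2⟩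
  · have h1 : (1 - t) ^ k ≤ 1 := pow_le_one₀ (by linarith [ht.2]) (by linarith [ht.1])
    have h2 : 0 ≤ (1 - t) ^ k := pow_nonneg (by linarith [ht.2]) _
    exact ⟨by linarith, by linarith⟩
  · exact ht

lemma phi_Ioo (hk : 0 < k) (a b : V) {t : ℝ} (ht : t ∈ Ioo (0 : ℝ) 1) : phi u k a b t ∈ Ioo (0 : ℝ) 1 := by
  unfold phi
  split_ifs
  · exact ⟨pow_pos ht.1 _, pow_lt_one₀ ht.1.le ht.2 hk.ne'⟩
  · have h1 : (1 - t) ^ k < 1 := pow_lt_one₀ (by linarith [ht.2]) (by linarith [ht.1]) hk.ne'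
    have h2 : 0 < (1 - t) ^ k := pow_pos (by linarith [ht.2]) _
    exact ⟨by linarith, by linarith⟩
  · exact ht

lemma phi_inj (hk : 0 < k) (a b : V) : InjOn (phi u k a b) (Icc 0 1) := by
  intro t ht s hs hts
  unfold phi at hts
  split_ifs at hts
  · exact (pow_left_inj₀ ht.1 hs.1 hk.ne').mp hts
  · have h1 : (1 - t) ^ k = (1 - s) ^ k := by linarith
    have := (pow_left_inj₀ (by linarith [ht.2]) (by linarith [hs.2]) hk.ne').mp h1
    linarith
  · exact hts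

lemma phi_rev {a b : V} (hab : a ≠ b) (t : ℝ) : phi u k a b (1 - t) = 1 - phi u k b a t := by
  unfold phi
  by_cases ha : a = u <;> by_cases hb : b = u
  · exact absurd (ha.trans hb.symm) hab
  · simp [ha, hb]
  · simp [ha, hb]
  · simp [ha, hb]

lemma phi_deriv (hk : 0 < k) (a b : V) {t : ℝ} (ht : t ∈ Ioo (0 : ℝ) 1) :
    ∃ r : ℝ, 0 < r ∧ HasDerivAt (phi u k a b) r t := by
  unfold phi
  split_ifs
  · refine ⟨k * t ^ (k - 1), mul_pos (by exact_mod_cast hk) (pow_pos ht.1 _), hasDerivAt_pow k t⟩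
  · have h1 : HasDerivAt (fun t : ℝ => 1 - t) (-1) t := by simpa using (hasDerivAt_id t).const_sub 1
    have h2 := (h1.pow k).const_sub 1
    refine ⟨_, ?_, h2⟩
    have h3 : 0 < (1 - t) ^ (k - 1) := pow_pos (by linarith [ht.2]) _
    have h4 : (0 : ℝ) < k := by exact_mod_cast hk
    have h5 : 0 < (k : ℝ) * (1 - t) ^ (k - 1) := mul_pos h4 h3
    linarith
  · exact ⟨1, one_pos, hasDerivAt_id t⟩

lemma phi_deriv_zero (hk : 0 < k) {a : V} (b : V) (ha : a ≠ u) :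
    ∃ r : ℝ, 0 < r ∧ HasDerivAt (phi u k a b) r 0 := by
  unfold phi
  simp only [if_neg ha]
  split_ifs
  · have h1 : HasDerivAt (fun t : ℝ => 1 - t) (-1) 0 := by simpa using (hasDerivAt_id (0 : ℝ)).const_sub 1
    have h2 := (h1.pow k).const_sub 1
    refine ⟨_, ?_, h2⟩
    have h4 : (0 : ℝ) < k := by exact_mod_cast hk
    simpa using h4
  · exact ⟨1, one_pos, hasDerivAt_id 0⟩

variable {G : SimpleGraph V} {pos : V → ℂ} {arc : V → V → ℝ → ℂ}

/-- A drawing may be mapped by an injective map which is conformal away from the vertex `u`. -/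
theorem map_drawing (h : FanDrawing G pos arc) (hk : 0 < k) {F : ℂ → ℂ} (hinj : InjOn F (pic G pos arc))
    (hcont : ContinuousOn F (pic G pos arc))
    (hder : ∀ z ∈ pic G pos arc, z ≠ pos u → ∃ m : ℂ, m ≠ 0 ∧ HasDerivAt F m z)
    (htan : ∀ b, G.Adj u b → ∃ d : ℂ, d ≠ 0 ∧ HasDerivWithinAt (fun t : ℝ => F (arc u b (t ^ k))) d (Icc 0 1) 0) :
    FanDrawing G (fun v => F (pos v)) (fun a b t => F (arc a b (phi u k a b t))) := by
  have hc : ∀ {a b c d t s}, Crosses G (fun a b t => F (arc a b (phi u k a b t))) a b c d t s →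
      Crosses G arc a b c d (phi u k a b t) (phi u k c d s) := by
    rintro a b c d t s ⟨k1, k2, k3, k4, k5, k6⟩
    refine ⟨k1, k2, k3, phi_Ioo hk a b k4, phi_Ioo hk c d k5, ?_⟩
    exact hinj (arc_mem k1 (phi_Icc a b (Ioo_subset_Icc_self k4))) (arc_mem k2 (phi_Icc c d (Ioo_subset_Icc_self k5))) k6
  -- the derivative at inner points
  have hd : ∀ {a b : V} {t : ℝ} {p : ℂ}, G.Adj a b → t ∈ Ioo (0 : ℝ) 1 → HasDerivAt (arc a b) p (phi u k a b t) →
      ∀ m : ℂ, HasDerivAt F m (arc a b (phi u k a b t)) →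
      ∃ r : ℝ, 0 < r ∧ HasDerivAt (fun t => F (arc a b (phi u k a b t))) (m * ((r : ℂ) * p)) t := by
    intro a b t p hab ht hp m hm
    obtain ⟨r, hr, hφ⟩ := phi_deriv (u := u) hk a b ht
    refine ⟨r, hr, ?_⟩
    have h1 : HasDerivAt (fun t => arc a b (phi u k a b t)) (r • p) t := hp.scomp t hφ
    have h2 := hm.comp t h1
    rw [Complex.real_smul] at h2
    exact h2
  constructor
  · intro a b hab
    exact h.pos_inj (hinj (pos_mem a) (pos_mem b) hab)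
  · intro a b hab
    have h1 : ContinuousOn (fun t => arc a b (phi u k a b t)) (Icc 0 1) :=
      (h.cont a b hab).comp (phi_cont a b).continuousOn (fun t ht => phi_Icc a b ht)
    exact hcont.comp h1 (fun t ht => arc_mem hab (phi_Icc a b ht))
  · intro a b hab t ht s hs hts
    have h1 := hinj (arc_mem hab (phi_Icc a b ht)) (arc_mem hab (phi_Icc a b hs)) hts
    exact phi_inj hk a b ht hs (h.inj a b hab (phi_Icc a b ht) (phi_Icc a b hs) h1)
  · intro a b hab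
    show F (arc a b (phi u k a b 0)) = F (pos a)
    rw [phi_zero hk, h.start a b hab]
  · intro a b hab t ht
    show F (arc b a (phi u k b a t)) = F (arc a b (phi u k a b (1 - t)))
    rw [phi_rev hab.ne, h.rev a b hab _ (phi_Icc b a ht)]
  · intro a b hab
    by_cases ha : a = u
    · subst ha
      obtain ⟨d, hd0, hd1⟩ := htan b hab
      refine ⟨d, hd0, ?_⟩
      convert hd1 using 2
      simp [phi]
    · obtain ⟨d, hd0, hd1⟩ := h.tangent a b hab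
      obtain ⟨r, hr, hφ⟩ := phi_deriv_zero (u := u) hk b ha
      obtain ⟨m, hm, hF⟩ := hder (arc a b 0) (arc_mem hab (by simp)) (by
        rw [h.start a b hab]; exact fun e => ha (h.pos_inj e))
      have hd1' : HasDerivWithinAt (arc a b) d (Icc 0 1) (phi u k a b 0) := by rw [phi_zero hk]; exact hd1
      have h1 : HasDerivWithinAt (fun t => arc a b (phi u k a b t)) (r • d) (Icc 0 1) 0 :=
        hd1'.scomp 0 hφ.hasDerivWithinAt (fun t ht => phi_Icc a b ht)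
      have hF' : HasDerivAt F m (arc a b (phi u k a b 0)) := by rw [phi_zero hk]; exact hF
      have h2 := hF'.comp_hasDerivWithinAt 0 h1
      refine ⟨m * (r • d), ?_, h2⟩
      exact mul_ne_zero hm (smul_ne_zero hr.ne' hd0)
  · intro a b c hab t ht he
    exact h.avoid a b c hab _ (phi_Icc a b ht) (hinj (arc_mem hab (phi_Icc a b ht)) (pos_mem c) he)
  · intro a b c d hab hcd hne
    refine ((h.finite a b c d hab hcd hne).image F).subset ?_
    rintro z ⟨⟨t, ht, rfl⟩, ⟨s, hs, he⟩⟩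
    have h1 := hinj (arc_mem hcd (phi_Icc c d hs)) (arc_mem hab (phi_Icc a b ht)) he
    exact ⟨arc a b (phi u k a b t), ⟨⟨_, phi_Icc a b ht, rfl⟩, ⟨_, phi_Icc c d hs, h1⟩⟩, rfl⟩
  · intro a b c d e f t s r k1 k2
    exact h.notriple _ _ _ _ _ _ _ _ _ (hc k1) (hc k2)
  · intro a b c d t s k1
    obtain ⟨p, q, hp, hq, hpq⟩ := h.transverse _ _ _ _ _ _ (hc k1)
    obtain ⟨m, hm, hF⟩ := hder _ (arc_mem k1.1 (phi_Icc a b (Ioo_subset_Icc_self k1.2.2.2.1)))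
      (h.inner_ne k1.1 (phi_Ioo hk a b k1.2.2.2.1))
    have hF' : HasDerivAt F m (arc c d (phi u k c d s)) := (hc k1).2.2.2.2.2 ▸ hF
    obtain ⟨r, hr, hd1⟩ := hd k1.1 k1.2.2.2.1 hp m hF
    obtain ⟨r', hr', hd2⟩ := hd k1.2.1 k1.2.2.2.2.1 hq m hF'
    refine ⟨_, _, hd1, hd2, ?_⟩
    rw [im_scale, map_mul, Complex.conj_ofReal]
    have : ((r : ℂ) * starRingEnd ℂ p * ((r' : ℂ) * q)).im = r * r' * (starRingEnd ℂ p * q).im := by
      have e1 : (r : ℂ) * starRingEnd ℂ p * ((r' : ℂ) * q) = ((r * r' : ℝ) : ℂ) * (starRingEnd ℂ p * q) := by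
        push_cast; ring
      rw [e1, Complex.im_ofReal_mul]
    rw [this]
    exact mul_ne_zero (by simpa [Complex.normSq_eq_zero] using hm) (mul_ne_zero (mul_pos hr hr').ne' hpq)
  · intro a b c d e f t s t' s' k1 k2
    exact h.fanI _ _ _ _ _ _ _ _ _ _ (hc k1) (hc k2)
  · intro a b c d v t s t' s' hcd k1 k2 p q p' q' hp hq hp' hq'
    obtain ⟨p1, q1, hp1, hq1, _⟩ := h.transverse _ _ _ _ _ _ (hc k1)
    obtain ⟨p2, q2, hp2, hq2, _⟩ := h.transverse _ _ _ _ _ _ (hc k2)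
    obtain ⟨m, hm, hF⟩ := hder _ (arc_mem k1.1 (phi_Icc a b (Ioo_subset_Icc_self k1.2.2.2.1)))
      (h.inner_ne k1.1 (phi_Ioo hk a b k1.2.2.2.1))
    have hF' : HasDerivAt F m (arc c v (phi u k c v s)) := (hc k1).2.2.2.2.2 ▸ hF
    obtain ⟨m', hm', hE⟩ := hder _ (arc_mem k2.1 (phi_Icc a b (Ioo_subset_Icc_self k2.2.2.2.1)))
      (h.inner_ne k2.1 (phi_Ioo hk a b k2.2.2.2.1))
    have hE' : HasDerivAt F m' (arc d v (phi u k d v s')) := (hc k2).2.2.2.2.2 ▸ hE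
    obtain ⟨r1, hr1, e1⟩ := hd k1.1 k1.2.2.2.1 hp1 m hF
    obtain ⟨r2, hr2, e2⟩ := hd k1.2.1 k1.2.2.2.2.1 hq1 m hF'
    obtain ⟨r3, hr3, e3⟩ := hd k2.1 k2.2.2.2.1 hp2 m' hE
    obtain ⟨r4, hr4, e4⟩ := hd k2.2.1 k2.2.2.2.2.1 hq2 m' hE'
    rw [hp.unique e1, hq.unique e2, hp'.unique e3, hq'.unique e4, im_scale, im_scale]
    have h3 := h.fanII _ _ _ _ _ _ _ _ _ hcd (hc k1) (hc k2) p1 q1 p2 q2 hp1 hq1 hp2 hq2
    have n1 : 0 < Complex.normSq m := Complex.normSq_pos.mpr hm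
    have n2 : 0 < Complex.normSq m' := Complex.normSq_pos.mpr hm'
    have sc : ∀ (x y : ℝ) (z w : ℂ), (starRingEnd ℂ ((x : ℂ) * z) * ((y : ℂ) * w)).im =
        x * y * (starRingEnd ℂ z * w).im := by
      intro x y z w
      have e1 : starRingEnd ℂ ((x : ℂ) * z) * ((y : ℂ) * w) = ((x * y : ℝ) : ℂ) * (starRingEnd ℂ z * w) := by
        rw [map_mul, Complex.conj_ofReal]; push_cast; ring
      rw [e1, Complex.im_ofReal_mul]
    rw [sc, sc]
    have : Complex.normSq m * (r1 * r2 * (starRingEnd ℂ p1 * q1).im) *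
        (Complex.normSq m' * (r3 * r4 * (starRingEnd ℂ p2 * q2).im)) =
        (Complex.normSq m * Complex.normSq m' * (r1 * r2) * (r3 * r4)) *
          ((starRingEnd ℂ p1 * q1).im * (starRingEnd ℂ p2 * q2).im) := by ring
    rw [this]
    positivity

end reparam

/-- The part of `G₁` inside `A` and the part of `G₂` outside `A` or at `u`. -/
def amalG (G₁ G₂ : SimpleGraph V) (A : Set V) (u : V) : SimpleGraph V where
  Adj a b := (a ∈ A ∧ b ∈ A ∧ G₁.Adj a b) ∨ (¬ (a ∈ A ∧ b ∈ A) ∧ (a ∉ A ∨ a = u) ∧ (b ∉ A ∨ b = u) ∧ G₂.Adj a b)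
  symm := ⟨by
    rintro a b (⟨h1, h2, h3⟩ | ⟨h0, h1, h2, h3⟩)
    · exact Or.inl ⟨h2, h1, h3.symm⟩
    · exact Or.inr ⟨fun h => h0 ⟨h.2, h.1⟩, h2, h1, h3.symm⟩⟩
  loopless := ⟨by
    rintro a (⟨h1, h2, h3⟩ | ⟨h0, h1, h2, h3⟩)
    · exact G₁.irrefl h3
    · exact G₂.irrefl h3⟩

open Classical in
/-- Two drawings which have only the place of the vertex `u` in common form a drawing. -/
theorem union_drawing {G₁ G₂ : SimpleGraph V} {pos₁ pos₂ : V → ℂ} {arc₁ arc₂ : V → V → ℝ → ℂ}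
    (h₁ : FanDrawing G₁ pos₁ arc₁) (h₂ : FanDrawing G₂ pos₂ arc₂) {A : Set V} {u : V} (hu : u ∈ A)
    (hpos : pos₂ u = pos₁ u) (hdis : ∀ z ∈ pic G₂ pos₂ arc₂, z ∈ pic G₁ pos₁ arc₁ → z = pos₁ u) :
    FanDrawing (amalG G₁ G₂ A u) (fun v => if v ∈ A then pos₁ v else pos₂ v)
      (fun a b => if a ∈ A ∧ b ∈ A then arc₁ a b else arc₂ a b) := by
  have hs1 : ∀ {a b}, a ∈ A → b ∈ A → (if a ∈ A ∧ b ∈ A then arc₁ a b else arc₂ a b) = arc₁ a b := by
    intro a b ha hb; rw [if_pos ⟨ha, hb⟩]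
  have hs2 : ∀ {a b}, ¬ (a ∈ A ∧ b ∈ A) → (if a ∈ A ∧ b ∈ A then arc₁ a b else arc₂ a b) = arc₂ a b := by
    intro a b hab; rw [if_neg hab]
  have hp1 : ∀ {a}, a ∈ A → (if a ∈ A then pos₁ a else pos₂ a) = pos₁ a := by
    intro a ha; rw [if_pos ha]
  have hp2 : ∀ {a}, a ∉ A → (if a ∈ A then pos₁ a else pos₂ a) = pos₂ a := by
    intro a ha; rw [if_neg ha]
  have hp2' : ∀ {a}, (a ∉ A ∨ a = u) → (if a ∈ A then pos₁ a else pos₂ a) = pos₂ a := by
    rintro a (ha | rfl)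
    · exact hp2 ha
    · rw [hp1 hu, hpos]
  have hc : ∀ {a b c d t s}, Crosses (amalG G₁ G₂ A u) (fun a b => if a ∈ A ∧ b ∈ A then arc₁ a b else arc₂ a b)
      a b c d t s → (a ∈ A ∧ b ∈ A ∧ c ∈ A ∧ d ∈ A ∧ Crosses G₁ arc₁ a b c d t s) ∨
        (¬ (a ∈ A ∧ b ∈ A) ∧ ¬ (c ∈ A ∧ d ∈ A) ∧ Crosses G₂ arc₂ a b c d t s) := by
    rintro a b c d t s ⟨hab, hcd, hne, ht, hs, he⟩
    rcases hab with ⟨ha, hb, gab⟩ | ⟨n1, ha, hb, gab⟩ <;> rcases hcd with ⟨hc, hd, gcd⟩ | ⟨n2, hc, hd, gcd⟩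
    · simp only [hs1 ha hb, hs1 hc hd] at he
      exact Or.inl ⟨ha, hb, hc, hd, gab, gcd, hne, ht, hs, he⟩
    · simp only [hs1 ha hb, hs2 n2] at he
      have h3 := hdis _ (arc_mem gcd (Ioo_subset_Icc_self hs)) (he ▸ arc_mem gab (Ioo_subset_Icc_self ht))
      exact absurd (he.trans h3) (h₁.inner_ne gab ht)
    · simp only [hs2 n1, hs1 hc hd] at he
      have h3 := hdis _ (he ▸ arc_mem gab (Ioo_subset_Icc_self ht)) (arc_mem gcd (Ioo_subset_Icc_self hs))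
      exact absurd h3 (h₁.inner_ne gcd hs)
    · simp only [hs2 n1, hs2 n2] at he
      exact Or.inr ⟨n1, n2, gab, gcd, hne, ht, hs, he⟩
  constructor
  · intro a b hab
    simp only at hab
    by_cases ha : a ∈ A <;> by_cases hb : b ∈ A
    · rw [hp1 ha, hp1 hb] at hab; exact h₁.pos_inj hab
    · rw [hp1 ha, hp2 hb] at hab
      have h3 := hdis _ (pos_mem b) (hab ▸ pos_mem a)
      rw [← hpos] at h3
      exact absurd (h₂.pos_inj h3 ▸ hu) hb
    · rw [hp2 ha, hp1 hb] at hab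
      have h3 := hdis _ (pos_mem a) (hab ▸ pos_mem b)
      rw [← hpos] at h3
      exact absurd (h₂.pos_inj h3 ▸ hu) ha
    · rw [hp2 ha, hp2 hb] at hab; exact h₂.pos_inj hab
  · rintro a b (⟨ha, hb, gab⟩ | ⟨n1, ha, hb, gab⟩)
    · simp only [hs1 ha hb]; exact h₁.cont a b gab
    · simp only [hs2 n1]; exact h₂.cont a b gab
  · rintro a b (⟨ha, hb, gab⟩ | ⟨n1, ha, hb, gab⟩)
    · simp only [hs1 ha hb]; exact h₁.inj a b gab
    · simp only [hs2 n1]; exact h₂.inj a b gab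
  · rintro a b (⟨ha, hb, gab⟩ | ⟨n1, ha, hb, gab⟩)
    · simp only [hs1 ha hb, hp1 ha]; exact h₁.start a b gab
    · simp only [hs2 n1, hp2' ha]; exact h₂.start a b gab
  · rintro a b (⟨ha, hb, gab⟩ | ⟨n1, ha, hb, gab⟩)
    · simp only [hs1 ha hb, hs1 hb ha]; exact h₁.rev a b gab
    · have n2 : ¬ (b ∈ A ∧ a ∈ A) := fun h => n1 ⟨h.2, h.1⟩
      simp only [hs2 n1, hs2 n2]; exact h₂.rev a b gab
  · rintro a b (⟨ha, hb, gab⟩ | ⟨n1, ha, hb, gab⟩)
    · simp only [hs1 ha hb]; exact h₁.tangent a b gab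
    · simp only [hs2 n1]; exact h₂.tangent a b gab
  · rintro a b c (⟨ha, hb, gab⟩ | ⟨n1, ha, hb, gab⟩) t ht he
    · simp only [hs1 ha hb] at he
      by_cases hc' : c ∈ A
      · rw [hp1 hc'] at he; exact h₁.avoid a b c gab t ht he
      · rw [hp2 hc'] at he
        have h3 := hdis _ (pos_mem c) (he ▸ arc_mem gab ht)
        rw [← hpos] at h3
        exact absurd (h₂.pos_inj h3 ▸ hu) hc'
    · simp only [hs2 n1] at he
      by_cases hc' : c ∈ A
      · rw [hp1 hc'] at he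
        have h3 := hdis _ (arc_mem gab ht) (he ▸ pos_mem c)
        have h4 : c = u := h₁.pos_inj (he.symm.trans h3)
        subst h4
        rw [← hpos] at he
        exact h₂.avoid a b c gab t ht he
      · rw [hp2 hc'] at he; exact h₂.avoid a b c gab t ht he
  · rintro a b c d (⟨ha, hb, gab⟩ | ⟨n1, ha, hb, gab⟩) (⟨hc', hd, gcd⟩ | ⟨n2, hc', hd, gcd⟩) hne
    · simp only [hs1 ha hb, hs1 hc' hd]; exact h₁.finite a b c d gab gcd hne
    · simp only [hs1 ha hb, hs2 n2]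
      refine (finite_singleton (pos₁ u)).subset ?_
      rintro z ⟨⟨t, ht, rfl⟩, ⟨s, hs, he⟩⟩
      exact hdis _ (he ▸ arc_mem gcd hs) (arc_mem gab ht)
    · simp only [hs2 n1, hs1 hc' hd]
      refine (finite_singleton (pos₁ u)).subset ?_
      rintro z ⟨⟨t, ht, rfl⟩, ⟨s, hs, he⟩⟩
      exact hdis _ (arc_mem gab ht) (he ▸ arc_mem gcd hs)
    · simp only [hs2 n1, hs2 n2]; exact h₂.finite a b c d gab gcd hne
  · intro a b c d e f t s r k1 k2
    rcases hc k1 with ⟨ha, hb, _, _, l1⟩ | ⟨n1, _, l1⟩ <;> rcases hc k2 with ⟨ha', hb', _, _, l2⟩ | ⟨n1', _, l2⟩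
    · exact h₁.notriple _ _ _ _ _ _ _ _ _ l1 l2
    · exact absurd ⟨ha, hb⟩ n1'
    · exact absurd ⟨ha', hb'⟩ n1
    · exact h₂.notriple _ _ _ _ _ _ _ _ _ l1 l2
  · intro a b c d t s k1
    rcases hc k1 with ⟨ha, hb, hc', hd, l1⟩ | ⟨n1, n2, l1⟩
    · simp only [hs1 ha hb, hs1 hc' hd]; exact h₁.transverse _ _ _ _ _ _ l1
    · simp only [hs2 n1, hs2 n2]; exact h₂.transverse _ _ _ _ _ _ l1
  · intro a b c d e f t s t' s' k1 k2
    rcases hc k1 with ⟨ha, hb, _, _, l1⟩ | ⟨n1, _, l1⟩ <;> rcases hc k2 with ⟨ha', hb', _, _, l2⟩ | ⟨n1', _, l2⟩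
    · exact h₁.fanI _ _ _ _ _ _ _ _ _ _ l1 l2
    · exact absurd ⟨ha, hb⟩ n1'
    · exact absurd ⟨ha', hb'⟩ n1
    · exact h₂.fanI _ _ _ _ _ _ _ _ _ _ l1 l2
  · intro a b c d v t s t' s' hcd k1 k2 p q p' q' hp hq hp' hq'
    rcases hc k1 with ⟨ha, hb, hc', hv, l1⟩ | ⟨n1, n2, l1⟩ <;> rcases hc k2 with ⟨ha', hb', hd, hv', l2⟩ | ⟨n1', n2', l2⟩
    · simp only [hs1 ha hb] at hp hp'
      simp only [hs1 hc' hv] at hq
      simp only [hs1 hd hv'] at hq'
      exact h₁.fanII _ _ _ _ _ _ _ _ _ hcd l1 l2 p q p' q' hp hq hp' hq'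
    · exact absurd ⟨ha, hb⟩ n1'
    · exact absurd ⟨ha', hb'⟩ n1
    · simp only [hs2 n1] at hp hp'
      simp only [hs2 n2] at hq
      simp only [hs2 n2'] at hq'
      exact h₂.fanII _ _ _ _ _ _ _ _ _ hcd l1 l2 p q p' q' hp hq hp' hq'

end Pool.Agent.H92.FP
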