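import Pool.Agent.H92.FP.Exist

set_option autoImplicit false

namespace Pool.Agent.H92.FP

open Set

/-- chords of a parabola with a common inner point are equal or interlaced -/
lemma chords {a b c d t s : ℝ} (ht : t ∈ Ioo (0 : ℝ) 1) (hs : s ∈ Ioo (0 : ℝ) 1)
    (hx : a + t * (b - a) = c + s * (d - c)) (hy : a ^ 2 + t * (b ^ 2 - a ^ 2) = c ^ 2 + s * (d ^ 2 - c ^ 2)) :
    ((c = a ∨ c = b) ∧ (d = a ∨ d = b)) ∨
      ((c - a) * (c - b) < 0 ∧ 0 < (d - a) * (d - b)) ∨ (0 < (c - a) * (c - b) ∧ (d - a) * (d - b) < 0) := by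
  have h1 : (1 - s) * ((c - a) * (c - b)) + s * ((d - a) * (d - b)) = 0 := by
    linear_combination (a + b) * hx - hy
  have hs0 := hs.1
  have hs1 : 0 < 1 - s := by linarith [hs.2]
  rcases lt_trichotomy ((c - a) * (c - b)) 0 with h | h | h
  · right; left
    refine ⟨h, ?_⟩
    by_contra hn
    push Not at hn
    nlinarith [mul_neg_of_pos_of_neg hs1 h, mul_nonpos_of_nonneg_of_nonpos hs0.le hn]
  · left
    rw [h, mul_zero, zero_add] at h1
    have h2 : (d - a) * (d - b) = 0 := by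
      rcases mul_eq_zero.mp h1 with h3 | h3
      · exact absurd h3 hs0.ne'
      · exact h3
    constructor
    · rcases mul_eq_zero.mp h with h3 | h3
      · left; linarith
      · right; linarith
    · rcases mul_eq_zero.mp h2 with h3 | h3
      · left; linarith
      · right; linarith
  · right; right
    refine ⟨h, ?_⟩
    by_contra hn
    push Not at hn
    nlinarith [mul_pos hs1 h, mul_nonneg hs0.le hn]

lemma between_of_neg {c a b : ℝ} (h : (c - a) * (c - b) < 0) : (a < c ∧ c < b) ∨ (b < c ∧ c < a) := by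
  rcases mul_neg_iff.mp h with ⟨h1, h2⟩ | ⟨h1, h2⟩
  · left; constructor <;> linarith
  · right; constructor <;> linarith

lemma outside_of_pos {d a b : ℝ} (h : 0 < (d - a) * (d - b)) : (a < d ∧ b < d) ∨ (d < a ∧ d < b) := by
  rcases mul_pos_iff.mp h with ⟨h1, h2⟩ | ⟨h1, h2⟩
  · left; constructor <;> linarith
  · right; constructor <;> linarith

variable {V : Type}

/-- A graph without interlaced edges is fan-planar (it has a drawing without crossings). -/
theorem fanPlanar_of_noninterlaced [Finite V] (G : SimpleGraph V) (f : V → ℝ) (hf : Function.Injective f)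
    (hn : ∀ a b c d, G.Adj a b → G.Adj c d → ¬ (f a < f c ∧ f c < f b ∧ f b < f d)) : FanPlanar G := by
  let p : V → ℂ := fun v => ⟨f v, (f v) ^ 2⟩
  let arc : V → V → ℝ → ℂ := fun a b t => p a + t * (p b - p a)
  have hre : ∀ a b t, (arc a b t).re = f a + t * (f b - f a) := by
    intro a b t
    simp [arc, p]
  have him : ∀ a b t, (arc a b t).im = (f a) ^ 2 + t * ((f b) ^ 2 - (f a) ^ 2) := by
    intro a b t
    simp [arc, p]
  have hp : Function.Injective p := fun a b hab => hf (congrArg Complex.re hab)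
  have hpne : ∀ a b, G.Adj a b → p b - p a ≠ 0 := fun a b hab h0 =>
    hab.ne' (hp (sub_eq_zero.mp h0))
  have h0 : ∀ a b, arc a b 0 = p a := by intro a b; simp [arc]
  have h1 : ∀ a b, arc a b 1 = p b := by intro a b; simp [arc]
  have hno : ∀ a b c d t s, ¬ Crosses G arc a b c d t s := by
    rintro a b c d t s ⟨hab, hcd, hne, ht, hs, he⟩
    have hx : f a + t * (f b - f a) = f c + s * (f d - f c) := by rw [← hre, ← hre, he]
    have hy : (f a) ^ 2 + t * ((f b) ^ 2 - (f a) ^ 2) = (f c) ^ 2 + s * ((f d) ^ 2 - (f c) ^ 2) := by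
      rw [← him, ← him, he]
    rcases chords ht hs hx hy with ⟨h2, h3⟩ | ⟨h2, h3⟩ | ⟨h2, h3⟩
    · have h2' : c = a ∨ c = b := h2.imp (fun h => hf h) (fun h => hf h)
      have h3' : d = a ∨ d = b := h3.imp (fun h => hf h) (fun h => hf h)
      have hcd' := hcd.ne
      rcases h2' with rfl | rfl <;> rcases h3' with rfl | rfl
      · exact hcd' rfl
      · exact hne rfl
      · exact hne Sym2.eq_swap
      · exact hcd' rfl
    · rcases between_of_neg h2 with ⟨k1, k2⟩ | ⟨k1, k2⟩ <;> rcases outside_of_pos h3 with ⟨l1, l2⟩ | ⟨l1, l2⟩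
      · exact hn a b c d hab hcd ⟨k1, k2, l2⟩
      · exact hn d c a b hcd.symm hab ⟨l1, k1, k2⟩
      · exact hn b a c d hab.symm hcd ⟨k1, k2, l1⟩
      · exact hn d c b a hcd.symm hab.symm ⟨l2, k1, k2⟩
    · rcases between_of_neg h3 with ⟨k1, k2⟩ | ⟨k1, k2⟩ <;> rcases outside_of_pos h2 with ⟨l1, l2⟩ | ⟨l1, l2⟩
      · exact hn a b d c hab hcd.symm ⟨k1, k2, l2⟩
      · exact hn c d a b hcd hab ⟨l1, k1, k2⟩
      · exact hn b a d c hab.symm hcd.symm ⟨k1, k2, l1⟩
      · exact hn c d b a hcd hab.symm ⟨l2, k1, k2⟩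
  refine ⟨p, arc, hp, ?_, ?_, ?_, ?_, ?_, ?_, ?_, ?_, ?_, ?_, ?_⟩
  · intro a b _
    exact (by fun_prop : Continuous (arc a b)).continuousOn
  · intro a b hab t _ s _ hts
    have h2 : (t : ℂ) * (p b - p a) = s * (p b - p a) := by
      have : p a + t * (p b - p a) = p a + s * (p b - p a) := hts
      linear_combination this
    exact_mod_cast mul_right_cancel₀ (hpne a b hab) h2
  · intro a b _
    exact h0 a b
  · intro a b _ t _
    show p b + t * (p a - p b) = p a + ((1 - t : ℝ) : ℂ) * (p b - p a)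
    push_cast
    ring
  · intro a b hab
    refine ⟨p b - p a, hpne a b hab, ?_⟩
    have h2 : HasDerivAt (fun t : ℝ => p a + t * (p b - p a)) (1 * (p b - p a)) 0 :=
      ((Complex.ofRealCLM.hasDerivAt (x := (0 : ℝ))).mul_const (p b - p a)).const_add (p a)
    rw [one_mul] at h2
    exact h2.hasDerivWithinAt
  · intro a b c _ t _ he
    have hx : f a + t * (f b - f a) = f c := by rw [← hre, he]
    have hy : (f a) ^ 2 + t * ((f b) ^ 2 - (f a) ^ 2) = (f c) ^ 2 := by rw [← him, he]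
    have h2 : (f c - f a) * (f c - f b) = 0 := by
      linear_combination (f a + f b) * hx - hy
    rcases mul_eq_zero.mp h2 with h3 | h3
    · left; exact hf (by linarith)
    · right; exact hf (by linarith)
  · intro a b c d hab hcd hne
    refine (finite_range p).subset ?_
    rintro z ⟨⟨t, ht, rfl⟩, ⟨s, hs, he⟩⟩
    by_cases ht0 : t = 0
    · rw [ht0, h0]; exact ⟨a, rfl⟩
    by_cases ht1 : t = 1
    · rw [ht1, h1]; exact ⟨b, rfl⟩
    by_cases hs0 : s = 0
    · rw [← he, hs0, h0]; exact ⟨c, rfl⟩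
    by_cases hs1 : s = 1
    · rw [← he, hs1, h1]; exact ⟨d, rfl⟩
    exact absurd ⟨hab, hcd, hne, ⟨lt_of_le_of_ne ht.1 (Ne.symm ht0), lt_of_le_of_ne ht.2 ht1⟩,
      ⟨lt_of_le_of_ne hs.1 (Ne.symm hs0), lt_of_le_of_ne hs.2 hs1⟩, he.symm⟩ (hno a b c d t s)
  · intro a b c d e g t s r h2; exact absurd h2 (hno _ _ _ _ _ _)
  · intro a b c d t s h2; exact absurd h2 (hno _ _ _ _ _ _)
  · intro a b c d e g t s t' s' h2; exact absurd h2 (hno _ _ _ _ _ _)
  · intro a b c d v t s t' s' _ h2; exact absurd h2 (hno _ _ _ _ _ _)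

/-- A triangle (with isolated vertices) is fan-planar. -/
lemma fanPlanar_triangle [Finite V] (a b c : V) :
    FanPlanar (SimpleGraph.fromEdgeSet ({s(a, b), s(b, c), s(a, c)} : Set (Sym2 V))) := by
  classical
  haveI := Fintype.ofFinite V
  let e := Fintype.equivFin V
  refine fanPlanar_of_noninterlaced _ (fun v => ((e v : ℕ) : ℝ)) ?_ ?_
  · intro x y hxy
    have : ((e x : ℕ) : ℝ) = ((e y : ℕ) : ℝ) := hxy
    exact e.injective (Fin.ext (by exact_mod_cast this))
  · intro x y z w hxy hzw ⟨h1, h2, h3⟩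
    have n1 : x ≠ z := by rintro rfl; exact lt_irrefl _ h1
    have n2 : z ≠ y := by rintro rfl; exact lt_irrefl _ h2
    have n3 : y ≠ w := by rintro rfl; exact lt_irrefl _ h3
    have n4 : x ≠ w := by rintro rfl; exact lt_irrefl _ (h1.trans (h2.trans h3))
    have hx := (SimpleGraph.fromEdgeSet_adj _).mp hxy
    have hz := (SimpleGraph.fromEdgeSet_adj _).mp hzw
    simp only [mem_insert_iff, mem_singleton_iff, Sym2.eq_iff] at hx hz
    rcases hx.1 with (⟨rfl, rfl⟩ | ⟨rfl, rfl⟩) | (⟨rfl, rfl⟩ | ⟨rfl, rfl⟩) | (⟨rfl, rfl⟩ | ⟨rfl, rfl⟩) <;>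
    rcases hz.1 with (⟨rfl, rfl⟩ | ⟨rfl, rfl⟩) | (⟨rfl, rfl⟩ | ⟨rfl, rfl⟩) | (⟨rfl, rfl⟩ | ⟨rfl, rfl⟩) <;>
    first
      | exact n1 rfl
      | exact n2 rfl
      | exact n3 rfl
      | exact n4 rfl

end Pool.Agent.H92.FP
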