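import Pool.Agent.H92.FP.Convex

set_option autoImplicit false

namespace Pool.Agent.H92.FP

open Set

variable {V : Type}

/-- Fan-planarity is inherited by subgraphs in the sense of an injection of the vertices. -/
theorem fanPlanar_comap {W : Type} (f : W ↪ V) {G : SimpleGraph V} (hG : FanPlanar G) : FanPlanar (G.comap f) := by
  obtain ⟨pos, arc, h⟩ := hG
  have hs : ∀ {a b c d : W}, s(a, b) ≠ s(c, d) → s(f a, f b) ≠ s(f c, f d) := by
    intro a b c d hne he
    apply hne
    rw [Sym2.eq_iff] at he ⊢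
    rcases he with ⟨h1, h2⟩ | ⟨h1, h2⟩
    · exact Or.inl ⟨f.injective h1, f.injective h2⟩
    · exact Or.inr ⟨f.injective h1, f.injective h2⟩
  have hc : ∀ {a b c d : W} {t s : ℝ}, Crosses (G.comap f) (fun a b => arc (f a) (f b)) a b c d t s →
      Crosses G arc (f a) (f b) (f c) (f d) t s :=
    fun k => ⟨k.1, k.2.1, hs k.2.2.1, k.2.2.2⟩
  refine ⟨fun v => pos (f v), fun a b => arc (f a) (f b), h.pos_inj.comp f.injective, fun a b k => h.cont _ _ k,
    fun a b k => h.inj _ _ k,
    fun a b k => h.start _ _ k, fun a b k => h.rev _ _ k, fun a b k => h.tangent _ _ k,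
    fun a b c k t ht he => (h.avoid _ _ _ k t ht he).imp (fun e => f.injective e) (fun e => f.injective e),
    fun a b c d k l hne => h.finite _ _ _ _ k l (hs hne),
    fun a b c d e g t s r k l => ?_,
    fun a b c d t s k => h.transverse _ _ _ _ t s (hc k),
    fun a b c d e g t s t' s' k l => ?_,
    fun a b c d v t s t' s' hcd k l =>
      h.fanII _ _ _ _ _ t s t' s' (fun e => hcd (f.injective e)) (hc k) (hc l)⟩
  · by_contra hne
    exact hs hne (h.notriple _ _ _ _ _ _ t s r (hc k) (hc l))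
  · rcases h.fanI _ _ _ _ _ _ t s t' s' (hc k) (hc l) with e1 | e1 | e1 | e1
    · exact Or.inl (f.injective e1)
    · exact Or.inr (Or.inl (f.injective e1))
    · exact Or.inr (Or.inr (Or.inl (f.injective e1)))
    · exact Or.inr (Or.inr (Or.inr (f.injective e1)))

/-- Isolated vertices can be added to a drawing. -/
theorem fanPlanar_map [Finite V] {W : Type} [Finite W] [Nonempty W] (f : W ↪ V) {G : SimpleGraph W}
    (hG : FanPlanar G) : FanPlanar (G.map f) := by
  classical
  obtain ⟨pos, arc, h⟩ := hG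
  obtain ⟨R, hR⟩ := (pic_compact h).isBounded.exists_norm_le
  haveI := Fintype.ofFinite V
  let e := Fintype.equivFin V
  let g : V → W := Function.invFun f
  have hg : ∀ a, g (f a) = a := Function.leftInverse_invFun f.injective
  let far : V → ℂ := fun v => ((|R| + 1 + ((e v : ℕ) : ℝ) : ℝ) : ℂ)
  have hfar : ∀ v, far v ∉ pic G pos arc := by
    intro v hv
    have h1 := hR _ hv
    rw [Complex.norm_real, Real.norm_eq_abs, abs_of_nonneg (by positivity)] at h1
    have h2 := le_abs_self R
    have h3 : (0 : ℝ) ≤ ((e v : ℕ) : ℝ) := by positivity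
    linarith
  have hfarinj : Function.Injective far := by
    intro x y hxy
    have h1 : (|R| + 1 + ((e x : ℕ) : ℝ) : ℝ) = (|R| + 1 + ((e y : ℕ) : ℝ) : ℝ) := Complex.ofReal_injective hxy
    have h2 : ((e x : ℕ) : ℝ) = ((e y : ℕ) : ℝ) := by linarith
    exact e.injective (Fin.ext (by exact_mod_cast h2))
  let pos' : V → ℂ := fun v => if v ∈ range f then pos (g v) else far v
  have hpos : ∀ a, pos' (f a) = pos a := by intro a; simp [pos', hg]
  have hpos' : ∀ v, v ∉ range f → pos' v = far v := by intro v hv; simp only [pos', if_neg hv]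
  have hadj : ∀ {x y}, (G.map f).Adj x y → ∃ a b, G.Adj a b ∧ f a = x ∧ f b = y := by
    intro x y hxy
    exact (SimpleGraph.map_adj f G x y).mp hxy
  have hs : ∀ {a b c d : W}, s(f a, f b) ≠ s(f c, f d) → s(a, b) ≠ s(c, d) := by
    intro a b c d hne he
    apply hne
    rw [Sym2.eq_iff] at he ⊢
    rcases he with ⟨rfl, rfl⟩ | ⟨rfl, rfl⟩
    · exact Or.inl ⟨rfl, rfl⟩
    · exact Or.inr ⟨rfl, rfl⟩
  have hc : ∀ {a b c d : V} {t s : ℝ}, Crosses (G.map f) (fun a b => arc (g a) (g b)) a b c d t s →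
      ∃ a' b' c' d', f a' = a ∧ f b' = b ∧ f c' = c ∧ f d' = d ∧ Crosses G arc a' b' c' d' t s := by
    rintro a b c d t s ⟨k1, k2, k3, k4, k5, k6⟩
    obtain ⟨a', b', h1, rfl, rfl⟩ := hadj k1
    obtain ⟨c', d', h2, rfl, rfl⟩ := hadj k2
    simp only [hg] at k6
    exact ⟨a', b', c', d', rfl, rfl, rfl, rfl, h1, h2, hs k3, k4, k5, k6⟩
  refine ⟨pos', fun a b => arc (g a) (g b), ?_, ?_, ?_, ?_, ?_, ?_, ?_, ?_, ?_, ?_, ?_, ?_⟩
  · intro x y hxy
    by_cases hx : x ∈ range f <;> by_cases hy : y ∈ range f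
    · obtain ⟨a, rfl⟩ := hx
      obtain ⟨b, rfl⟩ := hy
      rw [hpos, hpos] at hxy
      rw [h.pos_inj hxy]
    · obtain ⟨a, rfl⟩ := hx
      rw [hpos, hpos' y hy] at hxy
      exact absurd (hxy ▸ pos_mem a) (hfar y)
    · obtain ⟨b, rfl⟩ := hy
      rw [hpos, hpos' x hx] at hxy
      exact absurd (hxy ▸ pos_mem b) (hfar x)
    · rw [hpos' x hx, hpos' y hy] at hxy
      exact hfarinj hxy
  · intro x y hxy
    obtain ⟨a, b, hab, rfl, rfl⟩ := hadj hxy
    simp only [hg]; exact h.cont a b hab
  · intro x y hxy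
    obtain ⟨a, b, hab, rfl, rfl⟩ := hadj hxy
    simp only [hg]; exact h.inj a b hab
  · intro x y hxy
    obtain ⟨a, b, hab, rfl, rfl⟩ := hadj hxy
    simp only [hg, hpos]; exact h.start a b hab
  · intro x y hxy
    obtain ⟨a, b, hab, rfl, rfl⟩ := hadj hxy
    simp only [hg]; exact h.rev a b hab
  · intro x y hxy
    obtain ⟨a, b, hab, rfl, rfl⟩ := hadj hxy
    simp only [hg]; exact h.tangent a b hab
  · intro x y z hxy t ht he
    obtain ⟨a, b, hab, rfl, rfl⟩ := hadj hxy
    simp only [hg] at he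
    by_cases hz : z ∈ range f
    · obtain ⟨c, rfl⟩ := hz
      rw [hpos] at he
      rcases h.avoid a b c hab t ht he with rfl | rfl
      · exact Or.inl rfl
      · exact Or.inr rfl
    · rw [hpos' z hz] at he
      exact absurd (he ▸ arc_mem hab ht) (hfar z)
  · intro x y z w hxy hzw hne
    obtain ⟨a, b, hab, rfl, rfl⟩ := hadj hxy
    obtain ⟨c, d, hcd, rfl, rfl⟩ := hadj hzw
    simp only [hg]
    exact h.finite a b c d hab hcd (hs hne)
  · intro a b c d e g t s r k l
    obtain ⟨a', b', c', d', rfl, rfl, rfl, rfl, k'⟩ := hc k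
    obtain ⟨a'', b'', e', g', h1, h2, rfl, rfl, l'⟩ := hc l
    obtain rfl := f.injective h1
    obtain rfl := f.injective h2
    have := h.notriple _ _ _ _ _ _ t s r k' l'
    rw [Sym2.eq_iff] at this ⊢
    rcases this with ⟨rfl, rfl⟩ | ⟨rfl, rfl⟩
    · exact Or.inl ⟨rfl, rfl⟩
    · exact Or.inr ⟨rfl, rfl⟩
  · intro a b c d t s k
    obtain ⟨a', b', c', d', rfl, rfl, rfl, rfl, k'⟩ := hc k
    simp only [hg]
    exact h.transverse _ _ _ _ t s k'
  · intro a b c d e g' t s t' s' k l
    obtain ⟨a', b', c', d', rfl, rfl, rfl, rfl, k'⟩ := hc k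
    obtain ⟨a'', b'', e', g'', h1, h2, rfl, rfl, l'⟩ := hc l
    obtain rfl := f.injective h1
    obtain rfl := f.injective h2
    rcases h.fanI _ _ _ _ _ _ t s t' s' k' l' with rfl | rfl | rfl | rfl
    · exact Or.inl rfl
    · exact Or.inr (Or.inl rfl)
    · exact Or.inr (Or.inr (Or.inl rfl))
    · exact Or.inr (Or.inr (Or.inr rfl))
  · intro a b c d v t s t' s' hcd k l p q p' q' hp hq hp' hq'
    obtain ⟨a', b', c', v', rfl, rfl, rfl, rfl, k'⟩ := hc k
    obtain ⟨a'', b'', d', v'', h1, h2, rfl, h3, l'⟩ := hc l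
    obtain rfl := f.injective h1
    obtain rfl := f.injective h2
    obtain rfl := f.injective h3
    simp only [hg] at hp hq hp' hq'
    exact h.fanII _ _ _ _ _ t s t' s' (fun e => hcd (by rw [e])) k' l' p q p' q' hp hq hp' hq'

/-- The bridge `uw` separates `A` from its complement. -/
theorem edgeMaximal_side [Finite V] {G : SimpleGraph V} (hG : EdgeMaximal G) {A : Set V} {u w : V} (hu : u ∈ A)
    (hw : w ∉ A) (hA : ∀ a ∈ A, ∀ b ∉ A, G.Adj a b → a = u ∧ b = w) : EdgeMaximal (G.induce A) := by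
  classical
  refine ⟨fanPlanar_comap (Function.Embedding.subtype _) hG.1, ?_⟩
  intro x y hxy hnadj hfp
  haveI : Nonempty A := ⟨⟨u, hu⟩⟩
  have h1 := fanPlanar_map (Function.Embedding.subtype (· ∈ A)) hfp
  have h2 := fanPlanar_join h1 hG.1 hu hw
  refine hG.2 x y (fun h => hxy (Subtype.ext h)) (fun h => hnadj h) (fanPlanar_mono ?_ h2)
  intro a b hab
  rw [SimpleGraph.sup_adj, SimpleGraph.edge_adj] at hab
  rcases hab with hab | ⟨hab, hne⟩
  · by_cases ha : a ∈ A <;> by_cases hb : b ∈ A
    · refine Or.inl ⟨ha, hb, ?_⟩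
      rw [SimpleGraph.map_adj]
      exact ⟨⟨a, ha⟩, ⟨b, hb⟩, Or.inl hab, rfl, rfl⟩
    · obtain ⟨rfl, rfl⟩ := hA a ha b hb hab
      exact Or.inr (Or.inr ⟨hu, hw, Or.inl ⟨rfl, rfl⟩⟩)
    · obtain ⟨rfl, rfl⟩ := hA b hb a ha hab.symm
      exact Or.inr (Or.inr ⟨hu, hw, Or.inr ⟨rfl, rfl⟩⟩)
    · exact Or.inr (Or.inl ⟨ha, hb, hab⟩)
  · refine Or.inl ?_
    rcases hab with ⟨rfl, rfl⟩ | ⟨rfl, rfl⟩
    · refine ⟨x.2, y.2, ?_⟩
      rw [SimpleGraph.map_adj]
      exact ⟨x, y, Or.inr ((SimpleGraph.edge_adj ..).mpr ⟨Or.inl ⟨rfl, rfl⟩, hxy⟩), rfl, rfl⟩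
    · refine ⟨y.2, x.2, ?_⟩
      rw [SimpleGraph.map_adj]
      exact ⟨y, x, Or.inr ((SimpleGraph.edge_adj ..).mpr ⟨Or.inr ⟨rfl, rfl⟩, hxy.symm⟩), rfl, rfl⟩

/-- A path of two edges of an acyclic graph can be closed. -/
theorem fanPlanar_unicyclic [Finite V] {T : SimpleGraph V} (hT : T.IsAcyclic) {a b c : V} (hab : T.Adj a b)
    (hbc : T.Adj b c) (hac : ¬ T.Adj a c) : FanPlanar (T ⊔ SimpleGraph.edge a c) := by
  classical
  haveI := Fintype.ofFinite V
  have key : ∀ S : Finset (Sym2 V), (∀ e ∈ S, e ∈ T.edgeSet) →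
      FanPlanar (SimpleGraph.fromEdgeSet (({s(a, b), s(b, c), s(a, c)} : Set (Sym2 V)) ∪ S)) := by
    intro S
    induction S using Finset.induction_on with
    | empty =>
      intro _
      simpa using fanPlanar_triangle a b c
    | insert e S he ih =>
      intro hS
      have hSe := ih (fun f hf => hS f (Finset.mem_insert_of_mem hf))
      induction e using Sym2.ind with
      | h x y =>
        have hxy : T.Adj x y := hS _ (Finset.mem_insert_self _ _)
        by_cases hin : s(x, y) ∈ (({s(a, b), s(b, c), s(a, c)} : Set (Sym2 V)))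
        · refine fanPlanar_mono ?_ hSe
          intro p q hpq
          rw [SimpleGraph.fromEdgeSet_adj] at hpq ⊢
          refine ⟨?_, hpq.2⟩
          rcases hpq.1 with h | h
          · exact Or.inl h
          · rcases Finset.mem_insert.mp (Finset.mem_coe.mp h) with h | h
            · rw [h]; exact Or.inl hin
            · exact Or.inr h
        · have hbr := (SimpleGraph.isAcyclic_iff_forall_adj_isBridge.mp hT) hxy
          rw [SimpleGraph.isBridge_iff] at hbr
          have hcl : ∀ p q, (SimpleGraph.fromEdgeSet (({s(a, b), s(b, c), s(a, c)} : Set (Sym2 V)) ∪ S)).Adj p q →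
              (p ∈ {v | (T.deleteEdges {s(x, y)}).Reachable x v} ↔
                q ∈ {v | (T.deleteEdges {s(x, y)}).Reachable x v}) := by
            have hstep : ∀ p q, T.Adj p q → s(p, q) ≠ s(x, y) →
                (T.deleteEdges {s(x, y)}).Reachable p q := by
              intro p q hpq hne
              apply SimpleGraph.Adj.reachable
              rw [SimpleGraph.deleteEdges_adj]
              exact ⟨hpq, fun h => hne (mem_singleton_iff.mp h)⟩
            have hr : ∀ p q, (SimpleGraph.fromEdgeSet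
                (({s(a, b), s(b, c), s(a, c)} : Set (Sym2 V)) ∪ S)).Adj p q →
                (T.deleteEdges {s(x, y)}).Reachable p q := by
              intro p q hpq
              rw [SimpleGraph.fromEdgeSet_adj] at hpq
              have rab : (T.deleteEdges {s(x, y)}).Reachable a b :=
                hstep a b hab (fun h => hin (by rw [← h]; simp))
              have rbc : (T.deleteEdges {s(x, y)}).Reachable b c :=
                hstep b c hbc (fun h => hin (by rw [← h]; simp))
              rcases hpq.1 with h | h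
              · simp only [mem_insert_iff, mem_singleton_iff, Sym2.eq_iff] at h
                rcases h with (⟨rfl, rfl⟩ | ⟨rfl, rfl⟩) | (⟨rfl, rfl⟩ | ⟨rfl, rfl⟩) | (⟨rfl, rfl⟩ | ⟨rfl, rfl⟩)
                · exact rab
                · exact rab.symm
                · exact rbc
                · exact rbc.symm
                · exact rab.trans rbc
                · exact (rab.trans rbc).symm
              · have hmem : s(p, q) ∈ S := Finset.mem_coe.mp h
                refine hstep p q (hS _ (Finset.mem_insert_of_mem hmem)) ?_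
                intro h'
                exact he (h' ▸ hmem)
            intro p q hpq
            exact ⟨fun h => h.trans (hr p q hpq), fun h => h.trans (hr p q hpq).symm⟩
          refine fanPlanar_mono ?_ (fanPlanar_glue hSe hcl (SimpleGraph.Reachable.refl x) hbr)
          intro p q hpq
          rw [SimpleGraph.fromEdgeSet_adj] at hpq
          rw [SimpleGraph.sup_adj, SimpleGraph.fromEdgeSet_adj, SimpleGraph.edge_adj]
          rcases hpq.1 with h | h
          · exact Or.inl ⟨Or.inl h, hpq.2⟩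
          · rcases Finset.mem_insert.mp (Finset.mem_coe.mp h) with h | h
            · refine Or.inr ⟨?_, hpq.2⟩
              rw [Sym2.eq_iff] at h
              exact h
            · exact Or.inl ⟨Or.inr h, hpq.2⟩
  have hfin := key T.edgeFinset (fun e he => SimpleGraph.mem_edgeFinset.mp he)
  refine fanPlanar_mono ?_ hfin
  intro p q hpq
  rw [SimpleGraph.fromEdgeSet_adj]
  refine ⟨?_, hpq.ne⟩
  rw [SimpleGraph.sup_adj, SimpleGraph.edge_adj] at hpq
  rcases hpq with h | ⟨h, _⟩
  · right
    exact Finset.mem_coe.mpr (SimpleGraph.mem_edgeFinset.mpr h)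
  · left
    rcases h with ⟨rfl, rfl⟩ | ⟨rfl, rfl⟩
    · simp
    · simp [Sym2.eq_swap]

theorem card_le_edges [Fintype V] {G : SimpleGraph V} (hG : EdgeMaximal G) (hn : 3 ≤ Fintype.card V) :
    Fintype.card V ≤ G.edgeSet.ncard := by
  classical
  haveI : Nonempty V := Fintype.card_pos_iff.mp (by omega)
  have hconn : G.Connected := ⟨preconnected_of_edgeMaximal hG⟩
  by_contra hlt
  push Not at hlt
  have h1 : Nat.card V ≤ Nat.card G.edgeSet + 1 := hconn.card_vert_le_card_edgeSet_add_one
  have h2 : Nat.card G.edgeSet = G.edgeSet.ncard := rfl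
  rw [Nat.card_eq_fintype_card] at h1
  have htree : G.IsTree := SimpleGraph.isTree_iff_connected_and_card.mpr ⟨hconn, by
    rw [Nat.card_eq_fintype_card (α := V)]; omega⟩
  -- a vertex of degree at least two
  have hsum := G.sum_degrees_eq_twice_card_edges
  have h3 : G.edgeFinset.card = G.edgeSet.ncard := by
    rw [← Set.ncard_coe_finset, SimpleGraph.coe_edgeFinset]
  obtain ⟨b, hb⟩ : ∃ b, 1 < G.degree b := by
    by_contra hno
    push Not at hno
    have h4 : ∑ v, G.degree v ≤ ∑ _v : V, 1 := Finset.sum_le_sum fun v _ => hno v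
    rw [Finset.sum_const, Finset.card_univ, smul_eq_mul, mul_one, hsum] at h4
    omega
  rw [← SimpleGraph.card_neighborFinset_eq_degree, Finset.one_lt_card] at hb
  obtain ⟨a, ha, c, hc, hac⟩ := hb
  rw [SimpleGraph.mem_neighborFinset] at ha hc
  have hnac : ¬ G.Adj a c := by
    intro h
    have hbr := (SimpleGraph.isAcyclic_iff_forall_adj_isBridge.mp htree.isAcyclic) h
    rw [SimpleGraph.isBridge_iff] at hbr
    apply hbr
    have e1 : (G.deleteEdges {s(a, c)}).Adj a b := by
      rw [SimpleGraph.deleteEdges_adj]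
      refine ⟨ha.symm, fun k1 => ?_⟩
      rw [mem_singleton_iff, Sym2.eq_iff] at k1
      rcases k1 with ⟨_, k2⟩ | ⟨k2, _⟩
      · exact hc.ne k2
      · exact hac k2
    have e2 : (G.deleteEdges {s(a, c)}).Adj b c := by
      rw [SimpleGraph.deleteEdges_adj]
      refine ⟨hc, fun k1 => ?_⟩
      rw [mem_singleton_iff, Sym2.eq_iff] at k1
      rcases k1 with ⟨k2, _⟩ | ⟨k2, _⟩
      · exact ha.ne k2
      · exact hc.ne k2
    exact e1.reachable.trans e2.reachable
  exact hG.2 a c hac hnac (fanPlanar_unicyclic htree.isAcyclic ha.symm hc hnac)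

end Pool.Agent.H92.FP
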