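import Pool.Agent.H92.FP.Root

/-!
# The root map: injective, continuous, conformal off `pw`, image in a narrow sector
-/

set_option autoImplicit false

namespace Pool.Agent.H92.FP

open Set

/-- `z ↦ (z - pw) / (z - pw - η₂)` takes values in the slit plane away from the segment. -/
lemma mob_slit {L : Set ℂ} {pw η₂ : ℂ} (h₂ : ∀ s : ℝ, 0 < s → s ≤ 1 → pw + s * η₂ ∉ L) {z : ℂ}
    (hz : z ∈ L) (hzw : z ≠ pw) : (z - pw) / (z - pw - η₂) ∈ Complex.slitPlane := by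
  have hden : z - pw - η₂ ≠ 0 := by
    intro h
    have h1 := h₂ 1 one_pos le_rfl
    apply h1
    have : pw + ((1 : ℝ) : ℂ) * η₂ = z := by
      push_cast
      linear_combination -h
    rwa [this]
  rw [Complex.mem_slitPlane_iff_not_le_zero]
  intro hle
  obtain ⟨lam, hlam, hM⟩ : ∃ lam : ℝ, 0 ≤ lam ∧ (z - pw) / (z - pw - η₂) = -(lam : ℂ) := by
    rw [Complex.le_def] at hle
    refine ⟨-((z - pw) / (z - pw - η₂)).re, by simpa using hle.1, ?_⟩
    apply Complex.ext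
    · simp
    · simpa using hle.2
  rw [div_eq_iff hden] at hM
  have h1 : (1 + (lam : ℂ)) * (z - pw) = lam * η₂ := by linear_combination hM
  have h1l : (0 : ℝ) < 1 + lam := by linarith
  have h1c : (1 + (lam : ℂ)) ≠ 0 := by
    have : ((1 + lam : ℝ) : ℂ) ≠ 0 := Complex.ofReal_ne_zero.mpr h1l.ne'
    push_cast at this
    exact this
  rcases hlam.eq_or_lt with h0 | h0
  · rw [← h0] at h1
    simp at h1
    exact hzw (sub_eq_zero.mp h1)
  · have h2 := h₂ (lam / (1 + lam)) (div_pos h0 h1l) ((div_le_one h1l).mpr (by linarith))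
    apply h2
    have : pw + ((lam / (1 + lam) : ℝ) : ℂ) * η₂ = z := by
      push_cast
      field_simp
      linear_combination -h1
    rwa [this]

/-- Powers with exponent `1 / k` in polar form. -/
lemma cpow_polar {x : ℂ} (hx : x ≠ 0) {k : ℕ} (hk : 0 < k) :
    x ^ ((k : ℂ)⁻¹) = ((‖x‖ ^ ((k : ℝ)⁻¹) : ℝ) : ℂ) * Complex.exp (Complex.I * ((Complex.arg x / k : ℝ) : ℂ)) := by
  have hx' : 0 < ‖x‖ := norm_pos_iff.mpr hx
  rw [Complex.cpow_def_of_ne_zero hx, Real.rpow_def_of_pos hx', Complex.ofReal_exp, ← Complex.exp_add]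
  congr 1
  rw [Complex.log]
  push_cast
  field_simp

lemma exists_root {L : Set ℂ} (hL : IsCompact L) {pu pw η₁ η₂ : ℂ} (hη₁ : η₁ ≠ 0) (hη₂ : η₂ ≠ 0)
    (h₂ : ∀ s : ℝ, 0 < s → s ≤ 1 → pw + s * η₂ ∉ L) {κ : ℝ} (hκ : 0 < κ) :
    ∃ (k : ℕ) (ρ : ℝ), 0 < k ∧ 0 < ρ ∧ rootMap pu pw η₁ η₂ ρ k pw = pu ∧
      InjOn (rootMap pu pw η₁ η₂ ρ k) L ∧ ContinuousOn (rootMap pu pw η₁ η₂ ρ k) L ∧
      (∀ z ∈ L, z ≠ pw → ∃ m : ℂ, m ≠ 0 ∧ HasDerivAt (rootMap pu pw η₁ η₂ ρ k) m z) ∧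
      (∀ z ∈ L, z ≠ pw → ∃ s : ℝ, 0 < s ∧ s ≤ 1 ∧ ∃ ζ : ℂ, ‖ζ - 1‖ ≤ κ ∧
        rootMap pu pw η₁ η₂ ρ k z = pu + s * ζ * η₁) := by
  have hden : ∀ z ∈ L, z - pw - η₂ ≠ 0 := by
    intro z hz h
    have h1 := h₂ 1 one_pos le_rfl
    apply h1
    have : pw + ((1 : ℝ) : ℂ) * η₂ = z := by
      push_cast
      linear_combination -h
    rwa [this]
  have hMc : ContinuousOn (fun z : ℂ => (z - pw) / (z - pw - η₂)) L := by
    apply ContinuousOn.div
    · fun_prop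
    · fun_prop
    · exact hden
  obtain ⟨C₀, hC₀⟩ := hL.exists_bound_of_continuousOn hMc
  set C : ℝ := max C₀ 1 with hC
  have hC1 : 1 ≤ C := le_max_right _ _
  have hCb : ∀ z ∈ L, ‖(z - pw) / (z - pw - η₂)‖ ≤ C := fun z hz => (hC₀ z hz).trans (le_max_left _ _)
  have hCpos : 0 < C := by linarith
  obtain ⟨k, hk⟩ := exists_nat_ge (Real.pi / κ)
  have hkpos : (0 : ℝ) < k := lt_of_lt_of_le (div_pos Real.pi_pos hκ) hk
  have hk0 : 0 < k := by exact_mod_cast hkpos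
  have hkne : k ≠ 0 := hk0.ne'
  have hkc : (k : ℂ) ≠ 0 := by exact_mod_cast hkne
  have hkinv : ((k : ℂ)⁻¹) ≠ 0 := inv_ne_zero hkc
  have hk1 : (1 : ℝ) ≤ k := by exact_mod_cast hk0
  have hρ : (0 : ℝ) < 1 / C := by positivity
  have hρc : (((1 / C : ℝ) : ℂ) * η₁) ≠ 0 := mul_ne_zero (Complex.ofReal_ne_zero.mpr hρ.ne') hη₁
  have hder : ∀ z ∈ L, z ≠ pw → ∃ m : ℂ, m ≠ 0 ∧ HasDerivAt (rootMap pu pw η₁ η₂ (1 / C) k) m z := by
    intro z hz hzw
    have hd := hden z hz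
    have hslit := mob_slit h₂ hz hzw
    have h1 : HasDerivAt (fun z : ℂ => (z - pw) / (z - pw - η₂))
        ((1 * (z - pw - η₂) - (z - pw) * 1) / (z - pw - η₂) ^ 2) z := by
      apply HasDerivAt.div
      · exact (hasDerivAt_id z).sub_const pw
      · exact ((hasDerivAt_id z).sub_const pw).sub_const η₂
      · exact hd
    have h2 := (h1.cpow_const (c := (k : ℂ)⁻¹) hslit).const_mul (((1 / C : ℝ) : ℂ) * η₁)
    have h3 := h2.const_add pu
    refine ⟨_, ?_, h3⟩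
    refine mul_ne_zero hρc (mul_ne_zero (mul_ne_zero hkinv ?_) ?_)
    · exact Complex.cpow_ne_zero_iff.mpr (Or.inl (Complex.slitPlane_ne_zero hslit))
    · refine div_ne_zero ?_ (pow_ne_zero 2 hd)
      have : (1 * (z - pw - η₂) - (z - pw) * 1) = -η₂ := by ring
      rw [this]
      exact neg_ne_zero.mpr hη₂
  refine ⟨k, 1 / C, hk0, hρ, ?_, ?_, ?_, hder, ?_⟩
  · simp [rootMap, Complex.zero_cpow hkinv]
  · intro z hz z' hz' he
    simp only [rootMap] at he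
    have h1 : ((z - pw) / (z - pw - η₂)) ^ ((k : ℂ)⁻¹) = ((z' - pw) / (z' - pw - η₂)) ^ ((k : ℂ)⁻¹) :=
      mul_left_cancel₀ hρc (add_left_cancel he)
    have h2 : (z - pw) / (z - pw - η₂) = (z' - pw) / (z' - pw - η₂) := by
      rw [← Complex.cpow_nat_inv_pow ((z - pw) / (z - pw - η₂)) hkne, h1, Complex.cpow_nat_inv_pow _ hkne]
    rw [div_eq_div_iff (hden z hz) (hden z' hz')] at h2
    have h3 : η₂ * (z - z') = 0 := by linear_combination -h2
    rcases mul_eq_zero.mp h3 with h | h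
    · exact absurd h hη₂
    · exact sub_eq_zero.mp h
  · intro z hz
    by_cases hzw : z = pw
    · subst hzw
      have h1 : ContinuousAt (fun x : ℂ => x ^ ((k : ℂ)⁻¹)) ((z - z) / (z - z - η₂)) := by
        apply Complex.continuousAt_cpow_const_of_re_pos
        · left; simp
        · have : ((k : ℂ)⁻¹) = (((k : ℝ)⁻¹ : ℝ) : ℂ) := by push_cast; rfl
          rw [this, Complex.ofReal_re]
          positivity
      have h2 : ContinuousAt (fun y : ℂ => (y - z) / (y - z - η₂)) z := by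
        apply ContinuousAt.div
        · fun_prop
        · fun_prop
        · exact hden z hz
      have h3 : ContinuousAt (fun y : ℂ => ((y - z) / (y - z - η₂)) ^ ((k : ℂ)⁻¹)) z :=
        ContinuousAt.comp (g := fun x : ℂ => x ^ ((k : ℂ)⁻¹)) h1 h2
      exact (continuousAt_const.add (continuousAt_const.mul h3)).continuousWithinAt
    · obtain ⟨m, -, hm⟩ := hder z hz hzw
      exact hm.continuousAt.continuousWithinAt
  · intro z hz hzw
    have hslit := mob_slit h₂ hz hzw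
    have hx := Complex.slitPlane_ne_zero hslit
    set x : ℂ := (z - pw) / (z - pw - η₂) with hxdef
    have hx' : 0 < ‖x‖ := norm_pos_iff.mpr hx
    have hxC : ‖x‖ ≤ C := hCb z hz
    refine ⟨1 / C * ‖x‖ ^ ((k : ℝ)⁻¹), by positivity, ?_,
      Complex.exp (Complex.I * ((Complex.arg x / k : ℝ) : ℂ)), ?_, ?_⟩
    · have h1 : ‖x‖ ^ ((k : ℝ)⁻¹) ≤ C := by
        calc ‖x‖ ^ ((k : ℝ)⁻¹) ≤ C ^ ((k : ℝ)⁻¹) :=
              Real.rpow_le_rpow hx'.le hxC (by positivity)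
          _ ≤ C ^ (1 : ℝ) := Real.rpow_le_rpow_of_exponent_le hC1 (inv_le_one_of_one_le₀ hk1)
          _ = C := Real.rpow_one C
      rw [one_div, inv_mul_le_iff₀ hCpos]
      linarith
    · refine (Real.norm_exp_I_mul_ofReal_sub_one_le).trans ?_
      rw [Real.norm_eq_abs, abs_div, abs_of_pos hkpos, div_le_iff₀ hkpos]
      have h1 := Complex.abs_arg_le_pi x
      rw [div_le_iff₀ hκ] at hk
      linarith
    · show pu + ((1 / C : ℝ) : ℂ) * η₁ * x ^ ((k : ℂ)⁻¹) = _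
      rw [cpow_polar hx hk0]
      push_cast
      ring

end Pool.Agent.H92.FP
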