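import Pool.Agent.H92.FP.Root

set_option autoImplicit false

open Set Filter Topology

namespace Pool.Agent.H92.FP

lemma root_tangent {pu pw η₁ η₂ : ℂ} (hη₁ : η₁ ≠ 0) (hη₂ : η₂ ≠ 0) {ρ : ℝ} (hρ : 0 < ρ)
    {k : ℕ} (hk : 0 < k) (γ : ℝ → ℂ) (d : ℂ) (h0 : γ 0 = pw)
    (hd : HasDerivWithinAt γ d (Icc 0 1) 0) (him : (starRingEnd ℂ η₂ * d).im ≠ 0) :
    ∃ d' : ℂ, d' ≠ 0 ∧
      HasDerivWithinAt (fun t : ℝ => rootMap pu pw η₁ η₂ ρ k (γ (t ^ k))) d' (Icc 0 1) 0 := by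
  have hk0 : k ≠ 0 := hk.ne'
  have hkC : (k : ℂ) ≠ 0 := by exact_mod_cast hk0
  set F : Filter ℝ := 𝓝[Icc 0 1 \ {0}] (0 : ℝ) with hF
  -- the power maps `F` to `F`
  have hpow : Tendsto (fun t : ℝ => t ^ k) F F := by
    rw [hF, tendsto_nhdsWithin_iff]
    constructor
    · have h1 : Tendsto (fun t : ℝ => t ^ k) (𝓝 0) (𝓝 ((0 : ℝ) ^ k)) :=
        (continuous_pow k).tendsto 0
      rw [zero_pow hk0] at h1
      exact h1.mono_left nhdsWithin_le_nhds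
    · filter_upwards [self_mem_nhdsWithin] with t ht
      refine ⟨⟨pow_nonneg ht.1.1 k, pow_le_one₀ ht.1.1 ht.1.2⟩, ?_⟩
      have ht0 : t ≠ 0 := ht.2
      exact pow_ne_zero k ht0
  have hsl : Tendsto (slope γ 0) F (𝓝 d) := by
    rw [hF]; exact hasDerivWithinAt_iff_tendsto_slope.1 hd
  set q : ℝ → ℂ := fun t => slope γ 0 (t ^ k) with hq
  have hqt : Tendsto q F (𝓝 d) := hsl.comp hpow
  have htk : Tendsto (fun t : ℝ => (((t ^ k : ℝ)) : ℂ)) F (𝓝 0) := by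
    have h1 : Tendsto (fun t : ℝ => t ^ k) F (𝓝 0) := by
      refine hpow.mono_right ?_
      rw [hF]; exact nhdsWithin_le_nhds
    have h2 : Tendsto (Complex.ofReal ∘ fun t : ℝ => t ^ k) F (𝓝 ((0 : ℝ) : ℂ)) :=
      (Complex.continuous_ofReal.tendsto 0).comp h1
    rw [Complex.ofReal_zero] at h2
    exact h2
  set g : ℝ → ℂ := fun t => q t / ((((t ^ k : ℝ)) : ℂ) * q t - η₂) with hg
  set μ : ℂ := d / (0 * d - η₂) with hμ
  have hμ' : μ = -(d / η₂) := by rw [hμ]; rw [zero_mul, zero_sub, div_neg]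
  have hgt : Tendsto g F (𝓝 μ) := by
    have hden : (0 : ℂ) * d - η₂ ≠ 0 := by
      rw [zero_mul, zero_sub]; exact neg_ne_zero.2 hη₂
    exact hqt.div ((htk.mul hqt).sub tendsto_const_nhds) hden
  -- `μ` is not real
  have hμim : μ.im ≠ 0 := by
    intro h
    apply him
    have h1 : d = -(μ * η₂) := by
      rw [hμ']; field_simp
    rw [h1]
    have h2 : starRingEnd ℂ η₂ * -(μ * η₂) = -((Complex.normSq η₂ : ℂ) * μ) := by
      rw [Complex.normSq_eq_conj_mul_self]; ring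
    rw [h2, Complex.neg_im, Complex.im_ofReal_mul, h, mul_zero, neg_zero]
  have hslit : μ ∈ Complex.slitPlane := Complex.mem_slitPlane_iff.2 (Or.inr hμim)
  have hμ0 : μ ≠ 0 := by
    intro h; apply hμim; rw [h]; simp
  have hct : Tendsto (fun t => g t ^ ((k : ℂ)⁻¹)) F (𝓝 (μ ^ ((k : ℂ)⁻¹))) :=
    (continuousAt_cpow_const hslit).tendsto.comp hgt
  refine ⟨ρ * η₁ * μ ^ ((k : ℂ)⁻¹), ?_, ?_⟩
  · have hρC : (ρ : ℂ) ≠ 0 := by exact_mod_cast hρ.ne'
    refine mul_ne_zero (mul_ne_zero hρC hη₁) ?_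
    rw [Complex.cpow_def_of_ne_zero hμ0]
    exact Complex.exp_ne_zero _
  · rw [hasDerivWithinAt_iff_tendsto_slope]
    have hlim : Tendsto (fun t => ρ * η₁ * g t ^ ((k : ℂ)⁻¹)) F
        (𝓝 (ρ * η₁ * μ ^ ((k : ℂ)⁻¹))) := tendsto_const_nhds.mul hct
    refine hlim.congr' ?_
    have hne : ∀ᶠ t in F, g t ≠ 0 := hgt.eventually_ne hμ0
    have hmem : ∀ᶠ t in F, t ∈ Icc (0 : ℝ) 1 \ {0} := self_mem_nhdsWithin
    filter_upwards [hne, hmem] with t htg ht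
    have ht0 : t ≠ 0 := ht.2
    have htpos : 0 < t := lt_of_le_of_ne ht.1.1 (Ne.symm ht0)
    have htkpos : 0 < t ^ k := pow_pos htpos k
    have htkC : (((t ^ k : ℝ)) : ℂ) ≠ 0 := by exact_mod_cast htkpos.ne'
    have htC : (t : ℂ) ≠ 0 := by exact_mod_cast ht0
    -- `γ (t ^ k) - pw`
    have e1 : γ (t ^ k) - pw = (((t ^ k : ℝ)) : ℂ) * q t := by
      rw [hq]
      simp only [slope_def_module, sub_zero, h0, Complex.real_smul]
      rw [← mul_assoc, ← Complex.ofReal_mul, mul_inv_cancel₀ htkpos.ne', Complex.ofReal_one,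
        one_mul]
    have e2 : (γ (t ^ k) - pw) / (γ (t ^ k) - pw - η₂) = (((t ^ k : ℝ)) : ℂ) * g t := by
      rw [e1, hg]; simp only []; rw [mul_div_assoc]
    have e3 : ((((t ^ k : ℝ)) : ℂ) * g t) ^ ((k : ℂ)⁻¹) = t * g t ^ ((k : ℂ)⁻¹) := by
      rw [Complex.cpow_def_of_ne_zero (mul_ne_zero htkC htg),
        Complex.cpow_def_of_ne_zero htg, Complex.log_ofReal_mul htkpos htg, add_mul,
        Complex.exp_add]
      congr 1
      rw [Real.log_pow, Complex.ofReal_mul, Complex.ofReal_natCast, mul_comm ((k : ℂ)) _,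
        mul_assoc, mul_inv_cancel₀ hkC, mul_one, ← Complex.ofReal_exp, Real.exp_log htpos]
    have e4 : rootMap pu pw η₁ η₂ ρ k (γ (t ^ k)) = pu + ρ * η₁ * (t * g t ^ ((k : ℂ)⁻¹)) := by
      unfold rootMap
      rw [e2, e3]
    have e5 : rootMap pu pw η₁ η₂ ρ k (γ ((0 : ℝ) ^ k)) = pu := by
      unfold rootMap
      rw [zero_pow hk0, h0, sub_self, zero_div, Complex.zero_cpow (inv_ne_zero hkC), mul_zero,
        add_zero]
    rw [slope_def_module, e4, e5, sub_zero, add_sub_cancel_left, Complex.real_smul,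
      Complex.ofReal_inv]
    field_simp

end Pool.Agent.H92.FP
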