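import Pool.Agent.H92.FP.Seg

set_option autoImplicit false

namespace Pool.Agent.H92.FP

open Set Filter Topology

variable {V : Type} {G : SimpleGraph V} {pos : V → ℂ} {arc : V → V → ℝ → ℂ}

lemma sector_tendsto (p η : ℂ) :
    Tendsto (fun x : ℝ × ℂ => p + x.1 * x.2 * η) (𝓝[>] 0 ×ˢ 𝓝 1) (𝓝 p) := by
  have hc : Continuous fun x : ℝ × ℂ => p + x.1 * x.2 * η := by fun_prop
  have h7 := hc.tendsto (0, 1)
  simp only [Complex.ofReal_zero, zero_mul, add_zero] at h7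
  rw [nhds_prod_eq] at h7
  exact h7.mono_left (Filter.prod_mono nhdsWithin_le_nhds le_rfl)

lemma sector_ne : ∀ᶠ x : ℝ × ℂ in 𝓝[>] 0 ×ˢ 𝓝 1, 0 < x.1 ∧ x.2 ≠ 0 := by
  have h1 : ∀ᶠ s : ℝ in 𝓝[>] 0, 0 < s := self_mem_nhdsWithin
  have h2 : ∀ᶠ ζ : ℂ in 𝓝 1, ζ ≠ 0 := isOpen_ne.mem_nhds one_ne_zero
  exact h1.prod_mk h2

/-- A sector which does not contain the tangent of the edge leaves it at once. -/
lemma sector_edge (h : FanDrawing G pos arc) {u b : V} (hub : G.Adj u b) {η : ℂ}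
    (hη : η ≠ 0)
    (hd : ∀ d : ℂ, HasDerivWithinAt (arc u b) d (Icc 0 1) 0 → d ≠ 0 → (starRingEnd ℂ η * d).im ≠ 0) :
    ∀ᶠ x : ℝ × ℂ in 𝓝[>] 0 ×ˢ 𝓝 1, pos u + x.1 * x.2 * η ∉ arc u b '' Icc (0 : ℝ) 1 := by
  obtain ⟨d, hd0, hder⟩ := h.tangent u b hub
  have hcr := hd d hder hd0
  have h1 := (hasDerivWithinAt_iff_tendsto_slope.mp hder)
  have h2 : ∀ᶠ z : ℂ × ℂ in 𝓝 d ×ˢ 𝓝 1, (starRingEnd ℂ (z.2 * η) * z.1).im ≠ 0 := by
    have hc : Continuous fun z : ℂ × ℂ => (starRingEnd ℂ (z.2 * η) * z.1).im := by fun_prop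
    have h3 : (starRingEnd ℂ (((d, 1) : ℂ × ℂ).2 * η) * ((d, 1) : ℂ × ℂ).1).im ≠ 0 := by
      simpa using hcr
    have h4 := hc.continuousAt.eventually_ne h3
    rwa [nhds_prod_eq] at h4
  obtain ⟨pa, hpa, pb, hpb, hab⟩ := Filter.eventually_prod_iff.mp h2
  have h3 := h1.eventually hpa
  rw [eventually_nhdsWithin_iff, Metric.eventually_nhds_iff] at h3
  obtain ⟨τ, hτ, h4⟩ := h3
  -- the part with t ≥ τ
  have h5 : ∀ᶠ x : ℝ × ℂ in 𝓝[>] 0 ×ˢ 𝓝 1,
      pos u + x.1 * x.2 * η ∉ arc u b '' (Icc (0 : ℝ) 1 ∩ Ici τ) := by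
    have hc : IsCompact (arc u b '' (Icc (0 : ℝ) 1 ∩ Ici τ)) := by
      refine IsCompact.image_of_continuousOn ?_ ((h.cont u b hub).mono inter_subset_left)
      exact isCompact_Icc.inter_right isClosed_Ici
    have hn : pos u ∉ arc u b '' (Icc (0 : ℝ) 1 ∩ Ici τ) := by
      rintro ⟨t, ⟨ht, ht2⟩, h6⟩
      have : arc u b t = arc u b 0 := by rw [h6, h.start u b hub]
      have := h.inj u b hub ht (by simp) this
      have ht2' : τ ≤ t := ht2
      linarith
    have ho := hc.isClosed.isOpen_compl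
    exact (sector_tendsto (pos u) η).eventually (ho.mem_nhds hn)
  have hpb' : ∀ᶠ x : ℝ × ℂ in 𝓝[>] 0 ×ˢ 𝓝 1, pb x.2 := hpb.prod_inr _
  filter_upwards [h5, sector_ne, hpb'] with x hs hx hb
  rintro ⟨t, ht, hts⟩
  obtain ⟨hs0, hζ⟩ := hx
  by_cases htτ : τ ≤ t
  · exact hs ⟨t, ⟨ht, htτ⟩, hts⟩
  · push Not at htτ
    have ht0 : t ≠ 0 := by
      rintro rfl
      rw [h.start u b hub] at hts
      have : (x.1 : ℂ) * x.2 * η = 0 := by linear_combination -hts
      rcases mul_eq_zero.mp this with h8 | h8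
      · rcases mul_eq_zero.mp h8 with h9 | h9
        · exact hs0.ne' (by exact_mod_cast h9)
        · exact hζ h9
      · exact hη h8
    have htp : 0 < t := lt_of_le_of_ne ht.1 (Ne.symm ht0)
    have h9 := hab (h4 (y := t) (by rw [Real.dist_eq, sub_zero, abs_of_pos htp]; exact htτ)
      ⟨ht, by simpa using ht0⟩) hb
    apply h9
    simp only
    rw [slope_def_module, hts, h.start u b hub]
    have : (starRingEnd ℂ (x.2 * η) * ((t - 0)⁻¹ • (pos u + x.1 * x.2 * η - pos u))) =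
        ((t⁻¹ * x.1 * Complex.normSq (x.2 * η) : ℝ) : ℂ) := by
      rw [sub_zero, Complex.real_smul]
      push_cast
      rw [Complex.normSq_eq_conj_mul_self]
      ring
    rw [this]
    exact Complex.ofReal_im _

/-- The free sector at a vertex. -/
lemma free_sector [Finite V] (h : FanDrawing G pos arc) (u : V) :
    ∃ η : ℂ, η ≠ 0 ∧ ∃ κ : ℝ, 0 < κ ∧ ∀ s : ℝ, 0 < s → s ≤ 1 → ∀ ζ : ℂ, ‖ζ - 1‖ ≤ κ →
      pos u + s * ζ * η ∉ pic G pos arc := by
  classical
  -- directions of the tangents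
  let dd : V → ℂ := fun b => if hb : G.Adj u b then (h.tangent u b hb).choose else 0
  obtain ⟨η, hη, hdir⟩ := exists_dir dd
  have hcont := sector_tendsto (pos u) η
  have hE : ∀ b, G.Adj u b → ∀ᶠ x : ℝ × ℂ in 𝓝[>] 0 ×ˢ 𝓝 1,
      pos u + x.1 * x.2 * η ∉ arc u b '' Icc (0 : ℝ) 1 := by
    intro b hub
    refine sector_edge h hub hη ?_
    intro d hder hd0
    have h1 := (h.tangent u b hub).choose_spec
    have h2 : dd b = (h.tangent u b hub).choose := by simp [dd, hub]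
    have hu : UniqueDiffWithinAt ℝ (Icc (0 : ℝ) 1) 0 := (uniqueDiffOn_Icc one_pos) 0 (by simp)
    have h3 : d = (h.tangent u b hub).choose := hu.eq_deriv _ hder h1.2
    rw [h3, ← h2]
    apply hdir
    rw [h2]
    exact h1.1
  have hall : ∀ a b, ∀ᶠ x : ℝ × ℂ in 𝓝[>] 0 ×ˢ 𝓝 1,
      G.Adj a b → pos u + x.1 * x.2 * η ∉ arc a b '' Icc (0 : ℝ) 1 := by
    intro a b
    by_cases hab : G.Adj a b
    · by_cases hau : a = u
      · subst hau
        filter_upwards [hE b hab] with s hs _ using hs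
      · by_cases hbu : b = u
        · subst hbu
          filter_upwards [hE a hab.symm] with s hs _
          rintro ⟨t, ht, hts⟩
          refine hs ⟨1 - t, ⟨by linarith [ht.2], by linarith [ht.1]⟩, ?_⟩
          rw [← hts, h.rev b a hab.symm t ht]
        · have hc : IsCompact (arc a b '' Icc (0 : ℝ) 1) := isCompact_Icc.image_of_continuousOn (h.cont a b hab)
          have hn : pos u ∉ arc a b '' Icc (0 : ℝ) 1 := by
            rintro ⟨t, ht, h6⟩
            rcases h.avoid a b u hab t ht h6 with h7 | h7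
            · exact hau h7.symm
            · exact hbu h7.symm
          filter_upwards [hcont.eventually (hc.isClosed.isOpen_compl.mem_nhds hn)] with s hs _ using hs
    · exact Eventually.of_forall fun s hab' => absurd hab' hab
  have hver : ∀ v, ∀ᶠ x : ℝ × ℂ in 𝓝[>] 0 ×ˢ 𝓝 1, pos u + x.1 * x.2 * η ≠ pos v := by
    intro v
    by_cases hv : v = u
    · subst hv
      filter_upwards [sector_ne] with x hx h0
      have : (x.1 : ℂ) * x.2 * η = 0 := by linear_combination h0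
      rcases mul_eq_zero.mp this with h8 | h8
      · rcases mul_eq_zero.mp h8 with h9 | h9
        · exact hx.1.ne' (by exact_mod_cast h9)
        · exact hx.2 h9
      · exact hη h8
    · exact hcont.eventually (isOpen_ne.mem_nhds (fun h0 => hv (h.pos_inj h0.symm)))
  have hev : ∀ᶠ x : ℝ × ℂ in 𝓝[>] 0 ×ˢ 𝓝 1, pos u + x.1 * x.2 * η ∉ pic G pos arc := by
    have h1 : ∀ᶠ x : ℝ × ℂ in 𝓝[>] 0 ×ˢ 𝓝 1, ∀ a b, G.Adj a b →
        pos u + x.1 * x.2 * η ∉ arc a b '' Icc (0 : ℝ) 1 :=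
      eventually_all.mpr fun a => eventually_all.mpr fun b => hall a b
    have h2 : ∀ᶠ x : ℝ × ℂ in 𝓝[>] 0 ×ˢ 𝓝 1, ∀ v, pos u + x.1 * x.2 * η ≠ pos v :=
      eventually_all.mpr hver
    filter_upwards [h1, h2] with s hs1 hs2
    rintro (⟨v, hv⟩ | hmem)
    · exact hs2 v hv.symm
    · simp only [mem_iUnion] at hmem
      obtain ⟨a, b, hab, hz⟩ := hmem
      exact hs1 a b hab hz
  obtain ⟨pa, hpa, pb, hpb, hab⟩ := Filter.eventually_prod_iff.mp hev
  rw [eventually_nhdsWithin_iff, Metric.eventually_nhds_iff] at hpa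
  rw [Metric.eventually_nhds_iff] at hpb
  obtain ⟨ε, hε, hpa⟩ := hpa
  obtain ⟨κ, hκ, hpb⟩ := hpb
  refine ⟨((ε / 2 : ℝ) : ℂ) * η, mul_ne_zero (by exact_mod_cast (half_pos hε).ne') hη, κ / 2,
    half_pos hκ, ?_⟩
  intro s hs0 hs1 ζ hζ
  have h5 := hpa (y := s * (ε / 2)) (by
    rw [Real.dist_eq, sub_zero, abs_of_pos (by positivity)]
    nlinarith) (show (0 : ℝ) < s * (ε / 2) by positivity)
  have h6 := hpb (y := ζ) (by
    rw [dist_eq_norm]
    linarith)
  have h7 := hab h5 h6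
  intro hmem
  apply h7
  convert hmem using 2
  simp only
  push_cast
  ring

end Pool.Agent.H92.FP
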