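import Pool.Agent.H92.FP.Amal
import Pool.Agent.H92.FP.Sector
import Pool.Agent.H92.FP.RootA
import Pool.Agent.H92.FP.RootB
import Pool.Agent.H92.FP.Main

set_option autoImplicit false

namespace Pool.Agent.H92.FP

open Set Filter Topology

variable {V : Type}

/-- The free segment at a vertex, in a direction different from those of the edges. -/
lemma free_seg_dir [Finite V] {G : SimpleGraph V} {pos : V → ℂ} {arc : V → V → ℝ → ℂ} (h : FanDrawing G pos arc)
    (u : V) : ∃ η : ℂ, η ≠ 0 ∧ (∀ s : ℝ, 0 < s → s ≤ 1 → pos u + s * η ∉ pic G pos arc) ∧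
      ∀ b, G.Adj u b → ∃ d : ℂ, HasDerivWithinAt (arc u b) d (Icc 0 1) 0 ∧ (starRingEnd ℂ η * d).im ≠ 0 := by
  classical
  let dd : V → ℂ := fun b => if hb : G.Adj u b then (h.tangent u b hb).choose else 0
  obtain ⟨η, hη, hdir⟩ := exists_dir dd
  have hcont : Tendsto (fun s : ℝ => pos u + s * η) (𝓝[>] 0) (𝓝 (pos u)) := by
    have : Continuous fun s : ℝ => pos u + s * η := by fun_prop
    have h7 := this.tendsto 0
    simp only [Complex.ofReal_zero, zero_mul, add_zero] at h7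
    exact h7.mono_left nhdsWithin_le_nhds
  have hE : ∀ b, G.Adj u b → ∀ᶠ s : ℝ in 𝓝[>] 0, pos u + s * η ∉ arc u b '' Icc (0 : ℝ) 1 := by
    intro b hub
    refine ray_edge h hub hη ?_
    intro d hder hd0
    have h1 := (h.tangent u b hub).choose_spec
    have h2 : dd b = (h.tangent u b hub).choose := by simp [dd, hub]
    have hu : UniqueDiffWithinAt ℝ (Icc (0 : ℝ) 1) 0 := (uniqueDiffOn_Icc one_pos) 0 (by simp)
    have h3 : d = (h.tangent u b hub).choose := hu.eq_deriv _ hder h1.2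
    rw [h3, ← h2]
    apply hdir
    rw [h2]
    exact h1.1
  have hall : ∀ a b, ∀ᶠ s : ℝ in 𝓝[>] 0, G.Adj a b → pos u + s * η ∉ arc a b '' Icc (0 : ℝ) 1 := by
    intro a b
    by_cases hab : G.Adj a b
    · by_cases hau : a = u
      · subst hau
        filter_upwards [hE b hab] with s hs _ using hs
      · by_cases hbu : b = u
        · subst hbu
          filter_upwards [hE a hab.symm] with s hs _
          rintro ⟨t, ht, hts⟩
          refine hs ⟨1 - t, ⟨by linarith [ht.2], by linarith [ht.1]⟩, ?_⟩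
          rw [← hts, h.rev b a hab.symm t ht]
        · have hc : IsCompact (arc a b '' Icc (0 : ℝ) 1) := isCompact_Icc.image_of_continuousOn (h.cont a b hab)
          have hn : pos u ∉ arc a b '' Icc (0 : ℝ) 1 := by
            rintro ⟨t, ht, h6⟩
            rcases h.avoid a b u hab t ht h6 with h7 | h7
            · exact hau h7.symm
            · exact hbu h7.symm
          filter_upwards [hcont.eventually (hc.isClosed.isOpen_compl.mem_nhds hn)] with s hs _ using hs
    · exact Eventually.of_forall fun s hab' => absurd hab' hab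
  have hver : ∀ v, ∀ᶠ s : ℝ in 𝓝[>] 0, pos u + s * η ≠ pos v := by
    intro v
    by_cases hv : v = u
    · subst hv
      filter_upwards [self_mem_nhdsWithin] with s hs h0
      have hs' : (0 : ℝ) < s := hs
      have : (s : ℂ) * η = 0 := by linear_combination h0
      rcases mul_eq_zero.mp this with h8 | h8
      · exact hs'.ne' (by exact_mod_cast h8)
      · exact hη h8
    · exact hcont.eventually (isOpen_ne.mem_nhds (fun h0 => hv (h.pos_inj h0.symm)))
  have hev : ∀ᶠ s : ℝ in 𝓝[>] 0, pos u + s * η ∉ pic G pos arc := by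
    have h1 : ∀ᶠ s : ℝ in 𝓝[>] 0, ∀ a b, G.Adj a b → pos u + s * η ∉ arc a b '' Icc (0 : ℝ) 1 :=
      eventually_all.mpr fun a => eventually_all.mpr fun b => hall a b
    have h2 : ∀ᶠ s : ℝ in 𝓝[>] 0, ∀ v, pos u + s * η ≠ pos v := eventually_all.mpr hver
    filter_upwards [h1, h2] with s hs1 hs2
    rintro (⟨v, hv⟩ | hmem)
    · exact hs2 v hv.symm
    · simp only [mem_iUnion] at hmem
      obtain ⟨a, b, hab, hz⟩ := hmem
      exact hs1 a b hab hz
  rw [eventually_nhdsWithin_iff, Metric.eventually_nhds_iff] at hev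
  obtain ⟨ε, hε, hev⟩ := hev
  refine ⟨((ε / 2 : ℝ) : ℂ) * η, mul_ne_zero (by exact_mod_cast (half_pos hε).ne') hη, ?_, ?_⟩
  · intro s hs0 hs1
    have h5 := hev (y := s * (ε / 2)) (by
      rw [Real.dist_eq, sub_zero, abs_of_pos (by positivity)]
      nlinarith) (show (0 : ℝ) < s * (ε / 2) by positivity)
    intro hmem
    apply h5
    convert hmem using 2
    push_cast
    ring
  · intro b hub
    have h1 := (h.tangent u b hub).choose_spec
    have h2 : dd b = (h.tangent u b hub).choose := by simp [dd, hub]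
    refine ⟨(h.tangent u b hub).choose, h1.2, ?_⟩
    have h3 : (starRingEnd ℂ η * dd b).im ≠ 0 := hdir b (by rw [h2]; exact h1.1)
    rw [← h2]
    have h4 : starRingEnd ℂ (((ε / 2 : ℝ) : ℂ) * η) * dd b = ((ε / 2 : ℝ) : ℂ) * (starRingEnd ℂ η * dd b) := by
      rw [map_mul, Complex.conj_ofReal, mul_assoc]
    rw [h4, Complex.im_ofReal_mul]
    exact mul_ne_zero (half_pos hε).ne' h3

/-- The 1-sum of two fan-planar graphs is fan-planar. -/
theorem fanPlanar_amal [Finite V] {G₁ G₂ : SimpleGraph V} (hG₁ : FanPlanar G₁) (hG₂ : FanPlanar G₂) {A : Set V}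
    {u : V} (hu : u ∈ A) : FanPlanar (amalG G₁ G₂ A u) := by
  classical
  obtain ⟨pos₁, arc₁, h₁⟩ := hG₁
  obtain ⟨pos₂, arc₂, h₂⟩ := hG₂
  obtain ⟨η₁, hη₁, κ, hκ, f₁⟩ := free_sector h₁ u
  obtain ⟨η₂, hη₂, f₂, t₂⟩ := free_seg_dir h₂ u
  obtain ⟨k, ρ, hk, hρ, r1, r2, r3, r4, r5⟩ := exists_root (pu := pos₁ u) (pic_compact h₂) hη₁ hη₂ f₂ hκ
  have D := map_drawing h₂ hk r2 r3 r4 (by
    intro b hub
    obtain ⟨d, hd, him⟩ := t₂ b hub
    exact root_tangent hη₁ hη₂ hρ hk (arc₂ u b) d (h₂.start u b hub) hd him)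
  refine ⟨_, _, union_drawing h₁ D hu r1 ?_⟩
  intro z hz hz1
  have hF : ∃ y ∈ pic G₂ pos₂ arc₂, z = rootMap (pos₁ u) (pos₂ u) η₁ η₂ ρ k y := by
    rcases hz with ⟨v, rfl⟩ | hz
    · exact ⟨pos₂ v, pos_mem v, rfl⟩
    · simp only [mem_iUnion] at hz
      obtain ⟨a, b, hab, t, ht, rfl⟩ := hz
      exact ⟨arc₂ a b (phi u k a b t), arc_mem hab (phi_Icc a b ht), rfl⟩
  obtain ⟨y, hy, rfl⟩ := hF
  by_cases hyu : y = pos₂ u
  · rw [hyu, r1]
  · obtain ⟨s, hs0, hs1, ζ, hζ, he⟩ := r5 y hy hyu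
    rw [he] at hz1
    exact absurd hz1 (f₁ s hs0 hs1 ζ hζ)

/-- All edges leaving `A` start at `u`. -/
theorem edgeMaximal_cut [Finite V] {G : SimpleGraph V} (hG : EdgeMaximal G) {A : Set V} {u : V} (hu : u ∈ A)
    (hA : ∀ a ∈ A, ∀ b ∉ A, G.Adj a b → a = u) : EdgeMaximal (G.induce A) := by
  classical
  refine ⟨fanPlanar_comap (Function.Embedding.subtype _) hG.1, ?_⟩
  intro x y hxy hnadj hfp
  haveI : Nonempty A := ⟨⟨u, hu⟩⟩
  have h1 := fanPlanar_map (Function.Embedding.subtype (· ∈ A)) hfp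
  have h2 := fanPlanar_amal h1 hG.1 hu
  refine hG.2 x y (fun h => hxy (Subtype.ext h)) (fun h => hnadj h) (fanPlanar_mono ?_ h2)
  intro a b hab
  rw [SimpleGraph.sup_adj, SimpleGraph.edge_adj] at hab
  rcases hab with hab | ⟨hab, hne⟩
  · by_cases ha : a ∈ A <;> by_cases hb : b ∈ A
    · refine Or.inl ⟨ha, hb, ?_⟩
      rw [SimpleGraph.map_adj]
      exact ⟨⟨a, ha⟩, ⟨b, hb⟩, Or.inl hab, rfl, rfl⟩
    · exact Or.inr ⟨fun h => hb h.2, Or.inr (hA a ha b hb hab), Or.inl hb, hab⟩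
    · exact Or.inr ⟨fun h => ha h.1, Or.inl ha, Or.inr (hA b hb a ha hab.symm), hab⟩
    · exact Or.inr ⟨fun h => ha h.1, Or.inl ha, Or.inl hb, hab⟩
  · refine Or.inl ?_
    rcases hab with ⟨rfl, rfl⟩ | ⟨rfl, rfl⟩
    · refine ⟨x.2, y.2, ?_⟩
      rw [SimpleGraph.map_adj]
      exact ⟨x, y, Or.inr ((SimpleGraph.edge_adj ..).mpr ⟨Or.inl ⟨rfl, rfl⟩, hxy⟩), rfl, rfl⟩
    · refine ⟨y.2, x.2, ?_⟩
      rw [SimpleGraph.map_adj]
      exact ⟨y, x, Or.inr ((SimpleGraph.edge_adj ..).mpr ⟨Or.inr ⟨rfl, rfl⟩, hxy.symm⟩), rfl, rfl⟩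

/-- Two bridges `bx`, `by` can be closed to a triangle. -/
theorem fanPlanar_close [Finite V] {G : SimpleGraph V} (hG : FanPlanar G) {X Y : Set V} {x y b : V} (hx : x ∈ X)
    (hy : y ∈ Y) (hbX : b ∉ X) (hbY : b ∉ Y) (hXY : ∀ v, v ∈ X → v ∉ Y)
    (hX : ∀ p ∈ X, ∀ q ∉ X, G.Adj p q → p = x ∧ q = b) (hY : ∀ p ∈ Y, ∀ q ∉ Y, G.Adj p q → p = y ∧ q = b) :
    FanPlanar (G ⊔ SimpleGraph.edge x y) := by
  classical
  have hxy : x ≠ y := fun h => hXY x hx (h ▸ hy)
  have hxb : x ≠ b := fun h => hbX (h ▸ hx)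
  have hyb : y ≠ b := fun h => hbY (h ▸ hy)
  have hyX : y ∉ X := fun h => hXY y h hy
  have hxY : x ∉ Y := hXY x hx
  have T := fanPlanar_triangle x b y
  have J1 := fanPlanar_amal T hG (A := Xᶜ ∪ {x}) (u := x) (Or.inr rfl)
  have J2 := fanPlanar_amal J1 hG (A := Yᶜ ∪ {y}) (u := y) (Or.inr rfl)
  have J3 := fanPlanar_amal J2 hG (A := X ∪ Y ∪ {b}) (u := b) (Or.inr rfl)
  refine fanPlanar_mono ?_ J3
  -- membership facts
  have triadj : ∀ {p q : V}, p ≠ q → s(p, q) ∈ ({s(x, b), s(b, y), s(x, y)} : Set (Sym2 V)) →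
      (amalG (amalG (amalG (SimpleGraph.fromEdgeSet {s(x, b), s(b, y), s(x, y)}) G (Xᶜ ∪ {x}) x) G (Yᶜ ∪ {y}) y) G
        (X ∪ Y ∪ {b}) b).Adj p q := by
    intro p q hpq hmem
    have h1 : (SimpleGraph.fromEdgeSet {s(x, b), s(b, y), s(x, y)}).Adj p q :=
      (SimpleGraph.fromEdgeSet_adj _).mpr ⟨hmem, hpq⟩
    have hp : p = x ∨ p = b ∨ p = y := by
      simp only [mem_insert_iff, mem_singleton_iff, Sym2.eq_iff] at hmem
      rcases hmem with (⟨h, _⟩ | ⟨h, _⟩) | (⟨h, _⟩ | ⟨h, _⟩) | (⟨h, _⟩ | ⟨h, _⟩) <;> simp [h]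
    have hq : q = x ∨ q = b ∨ q = y := by
      simp only [mem_insert_iff, mem_singleton_iff, Sym2.eq_iff] at hmem
      rcases hmem with (⟨_, h⟩ | ⟨_, h⟩) | (⟨_, h⟩ | ⟨_, h⟩) | (⟨_, h⟩ | ⟨_, h⟩) <;> simp [h]
    have m1 : ∀ v, (v = x ∨ v = b ∨ v = y) → v ∈ Xᶜ ∪ {x} := by
      rintro v (rfl | rfl | rfl)
      · exact Or.inr rfl
      · exact Or.inl hbX
      · exact Or.inl hyX
    have m2 : ∀ v, (v = x ∨ v = b ∨ v = y) → v ∈ Yᶜ ∪ {y} := by
      rintro v (rfl | rfl | rfl)
      · exact Or.inl hxY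
      · exact Or.inl hbY
      · exact Or.inr rfl
    have m3 : ∀ v, (v = x ∨ v = b ∨ v = y) → v ∈ X ∪ Y ∪ {b} := by
      rintro v (rfl | rfl | rfl)
      · exact Or.inl (Or.inl hx)
      · exact Or.inr rfl
      · exact Or.inl (Or.inr hy)
    exact Or.inl ⟨m3 p hp, m3 q hq, Or.inl ⟨m2 p hp, m2 q hq, Or.inl ⟨m1 p hp, m1 q hq, h1⟩⟩⟩
  intro p q hpq
  rw [SimpleGraph.sup_adj, SimpleGraph.edge_adj] at hpq
  rcases hpq with hpq | ⟨h, hne⟩
  · by_cases hpX : p ∈ X <;> by_cases hqX : q ∈ X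
    · -- inside X
      have hpY := hXY p hpX
      have hqY := hXY q hqX
      refine Or.inl ⟨Or.inl (Or.inl hpX), Or.inl (Or.inl hqX), Or.inl ⟨Or.inl hpY, Or.inl hqY, ?_⟩⟩
      refine Or.inr ⟨?_, ?_, ?_, hpq⟩
      · rintro ⟨h1 | h1, h2 | h2⟩
        · exact h1 hpX
        · exact h1 hpX
        · exact h2 hqX
        · exact hpq.ne (h1.trans h2.symm)
      · by_cases h : p = x
        · exact Or.inr h
        · left; rintro (h1 | h1)
          · exact h1 hpX
          · exact h h1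
      · by_cases h : q = x
        · exact Or.inr h
        · left; rintro (h1 | h1)
          · exact h1 hqX
          · exact h h1
    · obtain ⟨rfl, rfl⟩ := hX p hpX q hqX hpq
      exact triadj hpq.ne (by simp)
    · obtain ⟨rfl, rfl⟩ := hX q hqX p hpX hpq.symm
      exact triadj hpq.ne (by simp [Sym2.eq_swap])
    · by_cases hpY : p ∈ Y <;> by_cases hqY : q ∈ Y
      · refine Or.inl ⟨Or.inl (Or.inr hpY), Or.inl (Or.inr hqY), Or.inr ⟨?_, ?_, ?_, hpq⟩⟩
        · rintro ⟨h1 | h1, h2 | h2⟩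
          · exact h1 hpY
          · exact h1 hpY
          · exact h2 hqY
          · exact hpq.ne (h1.trans h2.symm)
        · by_cases h : p = y
          · exact Or.inr h
          · left; rintro (h1 | h1)
            · exact h1 hpY
            · exact h h1
        · by_cases h : q = y
          · exact Or.inr h
          · left; rintro (h1 | h1)
            · exact h1 hqY
            · exact h h1
      · obtain ⟨rfl, rfl⟩ := hY p hpY q hqY hpq
        exact triadj hpq.ne (by simp [Sym2.eq_swap])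
      · obtain ⟨rfl, rfl⟩ := hY q hqY p hpY hpq.symm
        exact triadj hpq.ne (by simp)
      · -- in the rest
        refine Or.inr ⟨?_, ?_, ?_, hpq⟩
        · rintro ⟨(h1 | h1) | h1, (h2 | h2) | h2⟩
          · exact hpX h1
          · exact hpX h1
          · exact hpX h1
          · exact hpY h1
          · exact hpY h1
          · exact hpY h1
          · exact hqX h2
          · exact hqY h2
          · exact hpq.ne (h1.trans h2.symm)
        · by_cases h : p = b
          · exact Or.inr h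
          · left; rintro ((h1 | h1) | h1)
            · exact hpX h1
            · exact hpY h1
            · exact h h1
        · by_cases h : q = b
          · exact Or.inr h
          · left; rintro ((h1 | h1) | h1)
            · exact hqX h1
            · exact hqY h1
            · exact h h1
  · rcases h with ⟨rfl, rfl⟩ | ⟨rfl, rfl⟩
    · exact triadj hxy (by simp)
    · exact triadj hxy.symm (by simp [Sym2.eq_swap])

/-- No vertex is an end of two bridges. -/
theorem bridges_matching [Finite V] {G : SimpleGraph V} (hG : EdgeMaximal G) {b x y : V} (hxy : x ≠ y)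
    (hbx : G.Adj b x) (hby : G.Adj b y) (h1 : G.IsBridge s(b, x)) (h2 : G.IsBridge s(b, y)) : False := by
  classical
  rw [SimpleGraph.isBridge_iff] at h1 h2
  set X : Set V := {v | (G.deleteEdges {s(b, x)}).Reachable x v} with hXdef
  set Y : Set V := {v | (G.deleteEdges {s(b, y)}).Reachable y v} with hYdef
  have hx : x ∈ X := SimpleGraph.Reachable.refl x
  have hy : y ∈ Y := SimpleGraph.Reachable.refl y
  have hbX : b ∉ X := fun h => h1 h.symm
  have hbY : b ∉ Y := fun h => h2 h.symm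
  have hX : ∀ p ∈ X, ∀ q ∉ X, G.Adj p q → p = x ∧ q = b := by
    intro p hp q hq hpq
    by_contra hn
    apply hq
    refine SimpleGraph.Reachable.trans hp (SimpleGraph.Adj.reachable ?_)
    rw [SimpleGraph.deleteEdges_adj]
    refine ⟨hpq, fun h => ?_⟩
    rw [mem_singleton_iff, Sym2.eq_iff] at h
    rcases h with ⟨rfl, rfl⟩ | ⟨rfl, rfl⟩
    · exact hq hx
    · exact hn ⟨rfl, rfl⟩
  have hY : ∀ p ∈ Y, ∀ q ∉ Y, G.Adj p q → p = y ∧ q = b := by
    intro p hp q hq hpq
    by_contra hn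
    apply hq
    refine SimpleGraph.Reachable.trans hp (SimpleGraph.Adj.reachable ?_)
    rw [SimpleGraph.deleteEdges_adj]
    refine ⟨hpq, fun h => ?_⟩
    rw [mem_singleton_iff, Sym2.eq_iff] at h
    rcases h with ⟨rfl, rfl⟩ | ⟨rfl, rfl⟩
    · exact hq hy
    · exact hn ⟨rfl, rfl⟩
  have hyX : y ∉ X := by
    intro h
    exact hbX (by
      by_contra hb
      obtain ⟨h3, _⟩ := hX y h b hb hby.symm
      exact hxy h3.symm)
  have hsub : ∀ v, v ∈ Y → v ∉ X := by
    -- walk in Y never enters X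
    intro v hv
    have hv' : (G.deleteEdges {s(b, y)}).Reachable y v := hv
    obtain ⟨w⟩ := hv'
    have key : ∀ (p q : V) (w : (G.deleteEdges {s(b, y)}).Walk p q), p ∈ Y → p ∉ X → q ∉ X := by
      intro p q w
      induction w with
      | nil => intro _ h; exact h
      | cons hadj w ih =>
        intro hpY hpX
        have hadj' := (SimpleGraph.deleteEdges_adj.mp hadj).1
        have hqY := SimpleGraph.Reachable.trans hpY hadj.reachable
        refine ih hqY ?_
        intro hqX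
        obtain ⟨h3, h4⟩ := hX _ hqX _ hpX hadj'.symm
        subst h4
        exact hbY hpY
    exact key y v w hy hyX
  have hXY : ∀ v, v ∈ X → v ∉ Y := fun v h h' => hsub v h' h
  refine hG.2 x y hxy ?_ (fanPlanar_close hG.1 hx hy hbX hbY hXY hX hY)
  intro hadj
  obtain ⟨_, h3⟩ := hX x hx y hyX hadj
  exact hby.ne h3.symm

end Pool.Agent.H92.FP
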