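import Mathlib

set_option autoImplicit false

/-!
# Fan-planar drawings (MP_0e1dbc)
-/

namespace Pool.Agent.H92.FP

open Set

/-- The edges `ab` and `cd` of `G` are different and the interior point of `ab` with parameter `t` is the interior
point of `cd` with parameter `s`: a crossing. -/
def Crosses {V : Type} (G : SimpleGraph V) (arc : V → V → ℝ → ℂ) (a b c d : V) (t s : ℝ) : Prop :=
  G.Adj a b ∧ G.Adj c d ∧ s(a, b) ≠ s(c, d) ∧ t ∈ Ioo (0 : ℝ) 1 ∧ s ∈ Ioo (0 : ℝ) 1 ∧ arc a b t = arc c d s

/-- `pos` (the places of the vertices) and `arc` (`arc a b` is the edge `ab`, run through from `a` to `b`) form a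
fan-planar drawing of the graph `G` in the complex plane. -/
structure FanDrawing {V : Type} (G : SimpleGraph V) (pos : V → ℂ) (arc : V → V → ℝ → ℂ) : Prop where
  /-- distinct vertices have distinct places -/
  pos_inj : Function.Injective pos
  /-- edges are simple arcs -/
  cont : ∀ a b, G.Adj a b → ContinuousOn (arc a b) (Icc 0 1)
  inj : ∀ a b, G.Adj a b → InjOn (arc a b) (Icc 0 1)
  start : ∀ a b, G.Adj a b → arc a b 0 = pos a
  rev : ∀ a b, G.Adj a b → ∀ t ∈ Icc (0 : ℝ) 1, arc b a t = arc a b (1 - t)
  /-- edges have a tangent at their ends -/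
  tangent : ∀ a b, G.Adj a b → ∃ d : ℂ, d ≠ 0 ∧ HasDerivWithinAt (arc a b) d (Icc 0 1) 0
  /-- edges contain no vertex except their ends -/
  avoid : ∀ a b c, G.Adj a b → ∀ t ∈ Icc (0 : ℝ) 1, arc a b t = pos c → c = a ∨ c = b
  /-- two edges meet in finitely many points -/
  finite : ∀ a b c d, G.Adj a b → G.Adj c d → s(a, b) ≠ s(c, d) →
    (arc a b '' Icc 0 1 ∩ arc c d '' Icc 0 1).Finite
  /-- no three edges pass through one crossing -/
  notriple : ∀ a b c d e f t s r, Crosses G arc a b c d t s → Crosses G arc a b e f t r → s(c, d) = s(e, f)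
  /-- at a crossing the two edges have tangents, and these are different -/
  transverse : ∀ a b c d t s, Crosses G arc a b c d t s →
    ∃ p q : ℂ, HasDerivAt (arc a b) p t ∧ HasDerivAt (arc c d) q s ∧ (starRingEnd ℂ p * q).im ≠ 0
  /-- (I) no edge `ab` is crossed by two independent edges -/
  fanI : ∀ a b c d e f t s t' s', Crosses G arc a b c d t s → Crosses G arc a b e f t' s' →
    c = e ∨ c = f ∨ d = e ∨ d = f
  /-- (II) two edges `cv`, `dv` which cross `ab`, run through towards `v`, leave `ab` on the same side: the sign of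
  the imaginary part of `p̄ q` is positive if the direction `q` points to the left of the direction `p` -/
  fanII : ∀ a b c d v t s t' s', c ≠ d → Crosses G arc a b c v t s → Crosses G arc a b d v t' s' →
    ∀ p q p' q' : ℂ, HasDerivAt (arc a b) p t → HasDerivAt (arc c v) q s → HasDerivAt (arc a b) p' t' →
      HasDerivAt (arc d v) q' s' → 0 < (starRingEnd ℂ p * q).im * (starRingEnd ℂ p' * q').im

/-- `G` has a fan-planar drawing. -/
def FanPlanar {V : Type} (G : SimpleGraph V) : Prop := ∃ pos arc, FanDrawing G pos arc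

/-- `G` is fan-planar and no edge can be added. -/
def EdgeMaximal {V : Type} (G : SimpleGraph V) : Prop :=
  FanPlanar G ∧ ∀ u v, u ≠ v → ¬ G.Adj u v → ¬ FanPlanar (G ⊔ SimpleGraph.edge u v)

end Pool.Agent.H92.FP
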