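import Pool.Agent.H92.FP.Glue

set_option autoImplicit false

namespace Pool.Agent.H92.FP

open Set Filter Topology

variable {V : Type} {G : SimpleGraph V} {pos : V → ℂ} {arc : V → V → ℝ → ℂ}

/-- The geometric input of the gluing: for two compact sets with a free segment each there are a fractional linear
map and a segment which fit. -/
lemma exists_maps {K L : Set ℂ} (hK : IsCompact K) (hL : IsCompact L) {pu pw η₁ η₂ : ℂ}
    (hη₁ : η₁ ≠ 0) (hη₂ : η₂ ≠ 0) (h₁ : ∀ s : ℝ, 0 < s → s ≤ 1 → pu + s * η₁ ∉ K)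
    (h₂ : ∀ s : ℝ, 0 < s → s ≤ 1 → pw + s * η₂ ∉ L) :
    ∃ (α : ℂ → ℂ) (seg : ℝ → ℂ), (∀ z ∈ L, α z ∉ K) ∧ InjOn α L ∧
      (∀ z ∈ L, ∃ m : ℂ, m ≠ 0 ∧ HasDerivAt α m z) ∧ seg 0 = pu ∧ seg 1 = α pw ∧
      (∃ d : ℂ, d ≠ 0 ∧ ∀ t, HasDerivAt seg d t) ∧ Function.Injective seg ∧
      (∀ s ∈ Icc (0 : ℝ) 1, seg s ∈ K → s = 0) ∧
      (∀ s ∈ Icc (0 : ℝ) 1, ∀ z ∈ L, seg s = α z → s = 1) := by
  have hz0 : pu + η₁ ∈ Kᶜ := by
    have := h₁ 1 one_pos le_rfl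
    simpa using this
  have hz1 : pw + η₂ ∈ Lᶜ := by
    have := h₂ 1 one_pos le_rfl
    simpa using this
  obtain ⟨r, hr, hrK⟩ := Metric.isOpen_iff.mp hK.isClosed.isOpen_compl _ hz0
  obtain ⟨δ, hδ, hδL⟩ := Metric.isOpen_iff.mp hL.isClosed.isOpen_compl _ hz1
  have hn1 : 0 < ‖η₁‖ := norm_pos_iff.mpr hη₁
  have hn2 : 0 < ‖η₂‖ := norm_pos_iff.mpr hη₂
  obtain ⟨τ, hτ0, hτ1, hτr⟩ : ∃ τ : ℝ, 0 < τ ∧ τ < 1 ∧ τ * (‖η₁‖ * ‖η₂‖) < r * δ := by
    refine ⟨min (1 / 2) (r * δ / (2 * (‖η₁‖ * ‖η₂‖))), by positivity, ?_, ?_⟩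
    · exact lt_of_le_of_lt (min_le_left _ _) (by norm_num)
    · have h1 : min (1 / 2) (r * δ / (2 * (‖η₁‖ * ‖η₂‖))) ≤ r * δ / (2 * (‖η₁‖ * ‖η₂‖)) := min_le_right _ _
      have h2 : 0 < ‖η₁‖ * ‖η₂‖ := by positivity
      have h3 : r * δ / (2 * (‖η₁‖ * ‖η₂‖)) * (‖η₁‖ * ‖η₂‖) = r * δ / 2 := by field_simp
      have h4 : 0 < r * δ := by positivity
      nlinarith [mul_le_mul_of_nonneg_right h1 h2.le]
  have hτc : (τ : ℂ) ≠ 0 := by exact_mod_cast hτ0.ne'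
  set c : ℂ := τ * η₁ * η₂ with hc
  have hc0 : c ≠ 0 := mul_ne_zero (mul_ne_zero hτc hη₁) hη₂
  have hLδ : ∀ z ∈ L, δ ≤ ‖z - (pw + η₂)‖ := by
    intro z hz
    by_contra hlt
    push Not at hlt
    exact hδL (by rw [Metric.mem_ball, dist_eq_norm]; exact hlt) hz
  have hLne : ∀ z ∈ L, z - (pw + η₂) ≠ 0 := by
    intro z hz h0
    have := hLδ z hz
    rw [h0, norm_zero] at this
    linarith
  refine ⟨fun z => pu + η₁ + c / (z - (pw + η₂)), fun t => pu + (t * (1 - τ) : ℝ) * η₁, ?_, ?_, ?_, ?_, ?_, ?_, ?_,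
    ?_, ?_⟩
  · intro z hz hmem
    refine hrK ?_ hmem
    rw [Metric.mem_ball, dist_eq_norm]
    have h1 : pu + η₁ + c / (z - (pw + η₂)) - (pu + η₁) = c / (z - (pw + η₂)) := by ring
    rw [h1, norm_div]
    have h2 := hLδ z hz
    have h3 : ‖c‖ = τ * (‖η₁‖ * ‖η₂‖) := by
      rw [hc, norm_mul, norm_mul, Complex.norm_real, Real.norm_eq_abs, abs_of_pos hτ0]
      ring
    rw [div_lt_iff₀ (lt_of_lt_of_le hδ h2), h3]
    calc τ * (‖η₁‖ * ‖η₂‖) < r * δ := hτr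
      _ ≤ r * ‖z - (pw + η₂)‖ := by gcongr
  · intro z hz z' hz' he
    have h1 : c / (z - (pw + η₂)) = c / (z' - (pw + η₂)) := by
      have he' : pu + η₁ + c / (z - (pw + η₂)) = pu + η₁ + c / (z' - (pw + η₂)) := he
      linear_combination he'
    rw [div_eq_div_iff (hLne z hz) (hLne z' hz')] at h1
    have h2 := mul_left_cancel₀ hc0 h1
    linear_combination -h2
  · intro z hz
    have hne := hLne z hz
    refine ⟨-c / (z - (pw + η₂)) ^ 2, div_ne_zero (neg_ne_zero.mpr hc0) (pow_ne_zero 2 hne), ?_⟩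
    have h1 : HasDerivAt (fun z : ℂ => z - (pw + η₂)) 1 z := (hasDerivAt_id z).sub_const _
    have h2 := ((hasDerivAt_const z c).div h1 hne).const_add (pu + η₁)
    have h3 : -c / (z - (pw + η₂)) ^ 2 = (0 * (z - (pw + η₂)) - c * 1) / (z - (pw + η₂)) ^ 2 := by ring
    rw [h3]
    exact h2
  · simp
  · have hne : pw - (pw + η₂) ≠ 0 := by
      have : pw - (pw + η₂) = -η₂ := by ring
      rw [this]; exact neg_ne_zero.mpr hη₂
    show pu + ((1 * (1 - τ) : ℝ) : ℂ) * η₁ = pu + η₁ + c / (pw - (pw + η₂))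
    have : c / (pw - (pw + η₂)) = -(τ * η₁) := by
      rw [div_eq_iff hne, hc]; ring
    rw [this]
    push_cast
    ring
  · refine ⟨((1 - τ : ℝ) : ℂ) * η₁, mul_ne_zero (by exact_mod_cast (by linarith : (1 - τ : ℝ) ≠ 0)) hη₁, ?_⟩
    intro t
    have h1 : HasDerivAt (fun t : ℝ => ((t * (1 - τ) : ℝ) : ℂ)) ((1 * (1 - τ) : ℝ) : ℂ) t :=
      ((hasDerivAt_id t).mul_const (1 - τ)).ofReal_comp
    have h2 := (h1.mul_const η₁).const_add pu
    simpa using h2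
  · intro t s hts
    have h1 : ((t * (1 - τ) : ℝ) : ℂ) * η₁ = ((s * (1 - τ) : ℝ) : ℂ) * η₁ := by
      have : pu + ((t * (1 - τ) : ℝ) : ℂ) * η₁ = pu + ((s * (1 - τ) : ℝ) : ℂ) * η₁ := hts
      linear_combination this
    have h2 := mul_right_cancel₀ hη₁ h1
    have h3 : t * (1 - τ) = s * (1 - τ) := by exact_mod_cast h2
    exact mul_right_cancel₀ (by linarith : (1 - τ) ≠ 0) h3
  · intro s hs hmem
    by_contra hs0
    have hsp : 0 < s := lt_of_le_of_ne hs.1 (Ne.symm hs0)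
    refine h₁ (s * (1 - τ)) (mul_pos hsp (by linarith)) ?_ hmem
    nlinarith [hs.2]
  · intro s hs z hz he
    by_contra hs1
    have hslt : s < 1 := lt_of_le_of_ne hs.2 hs1
    have hne := hLne z hz
    set k : ℝ := 1 - s * (1 - τ) with hk
    have hkτ : τ < k := by rw [hk]; nlinarith
    have hk0 : 0 < k := hτ0.trans hkτ
    have hkc : (k : ℂ) ≠ 0 := by exact_mod_cast hk0.ne'
    have h1 : c / (z - (pw + η₂)) = -(k : ℂ) * η₁ := by
      have he' : pu + ((s * (1 - τ) : ℝ) : ℂ) * η₁ = pu + η₁ + c / (z - (pw + η₂)) := he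
      rw [hk]
      push_cast at he' ⊢
      linear_combination -he'
    rw [div_eq_iff hne, hc] at h1
    have h2 : z = pw + ((1 - τ / k : ℝ) : ℂ) * η₂ := by
      have h3 : (τ : ℂ) * η₂ = -(k : ℂ) * (z - (pw + η₂)) := by
        apply mul_left_cancel₀ hη₁
        linear_combination h1
      push_cast
      field_simp
      linear_combination h3
    refine h₂ (1 - τ / k) ?_ ?_ (h2 ▸ hz)
    · have : τ / k < 1 := (div_lt_one hk0).mpr hkτ
      linarith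
    · have : 0 < τ / k := by positivity
      linarith

theorem fanPlanar_mono {G H : SimpleGraph V} (hle : H ≤ G) (hG : FanPlanar G) : FanPlanar H := by
  obtain ⟨pos, arc, h⟩ := hG
  have hc : ∀ {a b c d t s}, Crosses H arc a b c d t s → Crosses G arc a b c d t s :=
    fun k => ⟨hle k.1, hle k.2.1, k.2.2⟩
  exact ⟨pos, arc, h.pos_inj, fun a b k => h.cont a b (hle k), fun a b k => h.inj a b (hle k),
    fun a b k => h.start a b (hle k), fun a b k => h.rev a b (hle k), fun a b k => h.tangent a b (hle k),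
    fun a b c k => h.avoid a b c (hle k), fun a b c d k l => h.finite a b c d (hle k) (hle l),
    fun a b c d e f t s r k l => h.notriple a b c d e f t s r (hc k) (hc l),
    fun a b c d t s k => h.transverse a b c d t s (hc k),
    fun a b c d e f t s t' s' k l => h.fanI a b c d e f t s t' s' (hc k) (hc l),
    fun a b c d v t s t' s' hcd k l => h.fanII a b c d v t s t' s' hcd (hc k) (hc l)⟩

/-- Gluing two drawings along a new edge. -/
theorem fanPlanar_join [Finite V] {G₁ G₂ : SimpleGraph V} (hG₁ : FanPlanar G₁) (hG₂ : FanPlanar G₂) {A : Set V}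
    {u w : V} (hu : u ∈ A) (hw : w ∉ A) : FanPlanar (joinG G₁ G₂ A u w) := by
  obtain ⟨pos₁, arc₁, h₁⟩ := hG₁
  obtain ⟨pos₂, arc₂, h₂⟩ := hG₂
  obtain ⟨η₁, hη₁, f₁⟩ := free_seg h₁ u
  obtain ⟨η₂, hη₂, f₂⟩ := free_seg h₂ w
  obtain ⟨α, seg, a1, a2, a3, a4, a5, a6, a7, a8, a9⟩ :=
    exists_maps (pic_compact h₁) (pic_compact h₂) hη₁ hη₂ f₁ f₂
  exact ⟨_, _, glue_drawing h₁ h₂ ⟨hu, hw, a1, a2, a3, a4, a5, a6, a7, a8, a9⟩⟩

theorem fanPlanar_glue [Finite V] (hG : FanPlanar G) {A : Set V} (hA : ∀ a b, G.Adj a b → (a ∈ A ↔ b ∈ A)) {u w : V}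
    (hu : u ∈ A) (hw : w ∉ A) : FanPlanar (G ⊔ SimpleGraph.edge u w) := by
  refine fanPlanar_mono ?_ (fanPlanar_join hG hG hu hw)
  intro a b hab
  rw [SimpleGraph.sup_adj, SimpleGraph.edge_adj] at hab
  rcases hab with hab | ⟨hab, _⟩
  · by_cases ha : a ∈ A
    · exact Or.inl ⟨ha, (hA a b hab).mp ha, hab⟩
    · exact Or.inr (Or.inl ⟨ha, fun hb => ha ((hA a b hab).mpr hb), hab⟩)
  · exact Or.inr (Or.inr ⟨hu, hw, hab⟩)

theorem preconnected_of_edgeMaximal [Finite V] (hG : EdgeMaximal G) : G.Preconnected := by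
  intro u w
  by_contra hn
  have hA : ∀ a b, G.Adj a b → (a ∈ {x | G.Reachable u x} ↔ b ∈ {x | G.Reachable u x}) := fun a b hab =>
    ⟨fun h => h.trans hab.reachable, fun h => h.trans hab.symm.reachable⟩
  refine hG.2 u w ?_ ?_ (fanPlanar_glue hG.1 hA (SimpleGraph.Reachable.refl u) hn)
  · rintro rfl; exact hn (SimpleGraph.Reachable.refl _)
  · intro h; exact hn h.reachable

end Pool.Agent.H92.FP
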