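import Pool.Agent.H92.FP.Seg

set_option autoImplicit false

namespace Pool.Agent.H92.FP

open Set Filter Topology

variable {V : Type} {G₁ G₂ : SimpleGraph V} {pos₁ pos₂ : V → ℂ} {arc₁ arc₂ : V → V → ℝ → ℂ}

/-- The part of `G₁` inside `A`, the part of `G₂` outside `A`, and the edge `uw`. -/
def joinG (G₁ G₂ : SimpleGraph V) (A : Set V) (u w : V) : SimpleGraph V where
  Adj a b := (a ∈ A ∧ b ∈ A ∧ G₁.Adj a b) ∨ (a ∉ A ∧ b ∉ A ∧ G₂.Adj a b) ∨
    (u ∈ A ∧ w ∉ A ∧ ((a = u ∧ b = w) ∨ (a = w ∧ b = u)))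
  symm := ⟨by
    rintro a b (⟨h1, h2, h3⟩ | ⟨h1, h2, h3⟩ | ⟨h1, h2, h3 | h3⟩)
    · exact Or.inl ⟨h2, h1, h3.symm⟩
    · exact Or.inr (Or.inl ⟨h2, h1, h3.symm⟩)
    · exact Or.inr (Or.inr ⟨h1, h2, Or.inr ⟨h3.2, h3.1⟩⟩)
    · exact Or.inr (Or.inr ⟨h1, h2, Or.inl ⟨h3.2, h3.1⟩⟩)⟩
  loopless := ⟨by
    rintro a (⟨h1, h2, h3⟩ | ⟨h1, h2, h3⟩ | ⟨h1, h2, h3 | h3⟩)
    · exact G₁.irrefl h3
    · exact G₂.irrefl h3
    · obtain ⟨rfl, rfl⟩ := h3; exact h2 h1
    · obtain ⟨rfl, rfl⟩ := h3; exact h2 h1⟩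

/-- The maps used in the gluing. -/
structure GlueData (G₁ G₂ : SimpleGraph V) (pos₁ pos₂ : V → ℂ) (arc₁ arc₂ : V → V → ℝ → ℂ) (A : Set V) (u w : V)
    (α : ℂ → ℂ) (seg : ℝ → ℂ) : Prop where
  hu : u ∈ A
  hw : w ∉ A
  αout : ∀ z ∈ pic G₂ pos₂ arc₂, α z ∉ pic G₁ pos₁ arc₁
  αinj : InjOn α (pic G₂ pos₂ arc₂)
  αder : ∀ z ∈ pic G₂ pos₂ arc₂, ∃ m : ℂ, m ≠ 0 ∧ HasDerivAt α m z
  seg0 : seg 0 = pos₁ u
  seg1 : seg 1 = α (pos₂ w)
  segder : ∃ d : ℂ, d ≠ 0 ∧ ∀ t, HasDerivAt seg d t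
  seginj : Function.Injective seg
  segA : ∀ s ∈ Icc (0 : ℝ) 1, seg s ∈ pic G₁ pos₁ arc₁ → s = 0
  segB : ∀ s ∈ Icc (0 : ℝ) 1, ∀ z ∈ pic G₂ pos₂ arc₂, seg s = α z → s = 1

open Classical in
noncomputable def gpos (pos₁ pos₂ : V → ℂ) (A : Set V) (α : ℂ → ℂ) (v : V) : ℂ :=
  if v ∈ A then pos₁ v else α (pos₂ v)

open Classical in
noncomputable def garc (arc₁ arc₂ : V → V → ℝ → ℂ) (A : Set V) (α : ℂ → ℂ) (seg : ℝ → ℂ) (a b : V) (t : ℝ) : ℂ :=
  if a ∈ A then (if b ∈ A then arc₁ a b t else seg t) else (if b ∈ A then seg (1 - t) else α (arc₂ a b t))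

variable {A : Set V} {u w : V} {α : ℂ → ℂ} {seg : ℝ → ℂ}

lemma gpos_A {v : V} (hv : v ∈ A) : gpos pos₁ pos₂ A α v = pos₁ v := by simp [gpos, hv]
lemma gpos_B {v : V} (hv : v ∉ A) : gpos pos₁ pos₂ A α v = α (pos₂ v) := by simp [gpos, hv]
lemma garc_AA {a b : V} (ha : a ∈ A) (hb : b ∈ A) : garc arc₁ arc₂ A α seg a b = arc₁ a b := by
  funext t; simp [garc, ha, hb]
lemma garc_BB {a b : V} (ha : a ∉ A) (hb : b ∉ A) : garc arc₁ arc₂ A α seg a b = α ∘ arc₂ a b := by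
  funext t; simp [garc, ha, hb]
lemma garc_AB {a b : V} (ha : a ∈ A) (hb : b ∉ A) : garc arc₁ arc₂ A α seg a b = seg := by
  funext t; simp [garc, ha, hb]
lemma garc_BA {a b : V} (ha : a ∉ A) (hb : b ∈ A) : garc arc₁ arc₂ A α seg a b = fun t => seg (1 - t) := by
  funext t; simp [garc, ha, hb]

lemma adj_cases {a b : V} (h : (joinG G₁ G₂ A u w).Adj a b) :
    (a ∈ A ∧ b ∈ A ∧ G₁.Adj a b) ∨ (a ∉ A ∧ b ∉ A ∧ G₂.Adj a b) ∨ (a = u ∧ b = w) ∨ (a = w ∧ b = u) := by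
  rcases h with h | h | ⟨_, _, h | h⟩
  · exact Or.inl h
  · exact Or.inr (Or.inl h)
  · exact Or.inr (Or.inr (Or.inl h))
  · exact Or.inr (Or.inr (Or.inr h))

lemma one_sub_mem {t : ℝ} (ht : t ∈ Ioo (0 : ℝ) 1) : 1 - t ∈ Ioo (0 : ℝ) 1 := ⟨by linarith [ht.2], by linarith [ht.1]⟩
lemma one_sub_mem' {t : ℝ} (ht : t ∈ Icc (0 : ℝ) 1) : 1 - t ∈ Icc (0 : ℝ) 1 := ⟨by linarith [ht.2], by linarith [ht.1]⟩

lemma cross_cases (g : GlueData G₁ G₂ pos₁ pos₂ arc₁ arc₂ A u w α seg) {a b c d : V} {t s : ℝ}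
    (h : Crosses (joinG G₁ G₂ A u w) (garc arc₁ arc₂ A α seg) a b c d t s) :
    (a ∈ A ∧ b ∈ A ∧ c ∈ A ∧ d ∈ A ∧ Crosses G₁ arc₁ a b c d t s) ∨
      (a ∉ A ∧ b ∉ A ∧ c ∉ A ∧ d ∉ A ∧ Crosses G₂ arc₂ a b c d t s) := by
  obtain ⟨hab, hcd, hne, ht, hs, heq⟩ := h
  have hu := g.hu
  have hw := g.hw
  have it := Ioo_subset_Icc_self ht
  have is := Ioo_subset_Icc_self hs
  have f2 : ∀ r ∈ Ioo (0 : ℝ) 1, ∀ x ∈ pic G₁ pos₁ arc₁, seg r = x → False := by
    intro r hr x hx he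
    have := g.segA r (Ioo_subset_Icc_self hr) (he ▸ hx)
    exact hr.1.ne' this
  have f3 : ∀ r ∈ Ioo (0 : ℝ) 1, ∀ x ∈ pic G₂ pos₂ arc₂, seg r = α x → False := by
    intro r hr x hx he
    have := g.segB r (Ioo_subset_Icc_self hr) x hx he
    exact hr.2.ne this
  rcases adj_cases hab with ⟨ha, hb, gab⟩ | ⟨ha, hb, gab⟩ | ⟨ha, hb⟩ | ⟨ha, hb⟩ <;>
  rcases adj_cases hcd with ⟨hc, hd, gcd⟩ | ⟨hc, hd, gcd⟩ | ⟨hc, hd⟩ | ⟨hc, hd⟩
  · rw [garc_AA ha hb, garc_AA hc hd] at heq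
    exact Or.inl ⟨ha, hb, hc, hd, gab, gcd, hne, ht, hs, heq⟩
  · rw [garc_AA ha hb, garc_BB hc hd] at heq
    have heq' : α (arc₂ c d s) = arc₁ a b t := heq.symm
    exact absurd (by rw [heq']; exact arc_mem gab it) (g.αout _ (arc_mem gcd is))
  · subst hc hd
    rw [garc_AA ha hb, garc_AB hu hw] at heq
    exact (f2 s hs _ (arc_mem gab it) heq.symm).elim
  · subst hc hd
    rw [garc_AA ha hb, garc_BA hw hu] at heq
    exact (f2 (1 - s) (one_sub_mem hs) _ (arc_mem gab it) heq.symm).elim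
  · rw [garc_BB ha hb, garc_AA hc hd] at heq
    have heq' : α (arc₂ a b t) = arc₁ c d s := heq
    exact absurd (by rw [heq']; exact arc_mem gcd is) (g.αout _ (arc_mem gab it))
  · rw [garc_BB ha hb, garc_BB hc hd] at heq
    exact Or.inr ⟨ha, hb, hc, hd, gab, gcd, hne, ht, hs, g.αinj (arc_mem gab it) (arc_mem gcd is) heq⟩
  · subst hc hd
    rw [garc_BB ha hb, garc_AB hu hw] at heq
    exact (f3 s hs _ (arc_mem gab it) heq.symm).elim
  · subst hc hd
    rw [garc_BB ha hb, garc_BA hw hu] at heq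
    exact (f3 (1 - s) (one_sub_mem hs) _ (arc_mem gab it) heq.symm).elim
  · subst ha hb
    rw [garc_AA hc hd, garc_AB hu hw] at heq
    exact (f2 t ht _ (arc_mem gcd is) heq).elim
  · subst ha hb
    rw [garc_BB hc hd, garc_AB hu hw] at heq
    exact (f3 t ht _ (arc_mem gcd is) heq).elim
  · subst ha hb hc hd
    exact absurd rfl hne
  · subst ha hb hc hd
    exact absurd Sym2.eq_swap hne
  · subst ha hb
    rw [garc_AA hc hd, garc_BA hw hu] at heq
    exact (f2 (1 - t) (one_sub_mem ht) _ (arc_mem gcd is) heq).elim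
  · subst ha hb
    rw [garc_BB hc hd, garc_BA hw hu] at heq
    exact (f3 (1 - t) (one_sub_mem ht) _ (arc_mem gcd is) heq).elim
  · subst ha hb hc hd
    exact absurd Sym2.eq_swap hne
  · subst ha hb hc hd
    exact absurd rfl hne

lemma im_scale (m p q : ℂ) : (starRingEnd ℂ (m * p) * (m * q)).im = Complex.normSq m * (starRingEnd ℂ p * q).im := by
  have : starRingEnd ℂ (m * p) * (m * q) = (Complex.normSq m : ℂ) * (starRingEnd ℂ p * q) := by
    rw [Complex.normSq_eq_conj_mul_self, map_mul]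
    ring
  rw [this, Complex.im_ofReal_mul]

theorem glue_drawing (h₁ : FanDrawing G₁ pos₁ arc₁) (h₂ : FanDrawing G₂ pos₂ arc₂) (g : GlueData G₁ G₂ pos₁ pos₂ arc₁ arc₂ A u w α seg) :
    FanDrawing (joinG G₁ G₂ A u w) (gpos pos₁ pos₂ A α) (garc arc₁ arc₂ A α seg) := by
  have hu := g.hu
  have hw := g.hw
  have αcont : ContinuousOn α (pic G₂ pos₂ arc₂) := fun z hz => by
    obtain ⟨m, _, hm⟩ := g.αder z hz
    exact hm.continuousAt.continuousWithinAt
  obtain ⟨dseg, hdseg, hseg⟩ := g.segder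
  have segc : Continuous seg := continuous_iff_continuousAt.mpr fun t => (hseg t).continuousAt
  have hseg' : ∀ t, HasDerivAt (fun t => seg (1 - t)) (-dseg) t := by
    intro t
    have h1 : HasDerivAt (fun t : ℝ => 1 - t) (-1) t := by
      simpa using (hasDerivAt_id t).const_sub 1
    have := (hseg (1 - t)).scomp t h1
    simpa [Function.comp_def] using this
  constructor
  · -- pos_inj
    intro a b hab
    by_cases ha : a ∈ A <;> by_cases hb : b ∈ A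
    · rw [gpos_A ha, gpos_A hb] at hab
      exact h₁.pos_inj hab
    · rw [gpos_A ha, gpos_B hb] at hab
      exact absurd (hab ▸ pos_mem a) (g.αout _ (pos_mem b))
    · rw [gpos_B ha, gpos_A hb] at hab
      exact absurd (hab ▸ pos_mem b) (g.αout _ (pos_mem a))
    · rw [gpos_B ha, gpos_B hb] at hab
      exact h₂.pos_inj (g.αinj (pos_mem a) (pos_mem b) hab)
  · -- cont
    intro a b hab
    rcases adj_cases hab with ⟨ha, hb, gab⟩ | ⟨ha, hb, gab⟩ | ⟨rfl, rfl⟩ | ⟨rfl, rfl⟩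
    · rw [garc_AA ha hb]; exact h₁.cont a b gab
    · rw [garc_BB ha hb]
      exact αcont.comp (h₂.cont a b gab) (fun t ht => arc_mem gab ht)
    · rw [garc_AB hu hw]; exact segc.continuousOn
    · rw [garc_BA hw hu]; exact (by fun_prop : Continuous fun t => seg (1 - t)).continuousOn
  · -- inj
    intro a b hab
    rcases adj_cases hab with ⟨ha, hb, gab⟩ | ⟨ha, hb, gab⟩ | ⟨rfl, rfl⟩ | ⟨rfl, rfl⟩
    · rw [garc_AA ha hb]; exact h₁.inj a b gab
    · rw [garc_BB ha hb]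
      exact g.αinj.comp (h₂.inj a b gab) (fun t ht => arc_mem gab ht)
    · rw [garc_AB hu hw]; exact g.seginj.injOn
    · rw [garc_BA hw hu]
      intro t _ s _ hts
      have := g.seginj hts
      linarith
  · -- start
    intro a b hab
    rcases adj_cases hab with ⟨ha, hb, gab⟩ | ⟨ha, hb, gab⟩ | ⟨rfl, rfl⟩ | ⟨rfl, rfl⟩
    · rw [garc_AA ha hb, gpos_A ha]; exact h₁.start a b gab
    · rw [garc_BB ha hb, gpos_B ha, Function.comp_apply, h₂.start a b gab]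
    · rw [garc_AB hu hw, gpos_A hu, g.seg0]
    · rw [garc_BA hw hu, gpos_B hw]
      show seg (1 - 0) = _
      rw [sub_zero, g.seg1]
  · -- rev
    intro a b hab t ht
    rcases adj_cases hab with ⟨ha, hb, gab⟩ | ⟨ha, hb, gab⟩ | ⟨rfl, rfl⟩ | ⟨rfl, rfl⟩
    · rw [garc_AA ha hb, garc_AA hb ha]; exact h₁.rev a b gab t ht
    · rw [garc_BB ha hb, garc_BB hb ha, Function.comp_apply, Function.comp_apply, h₂.rev a b gab t ht]
    · rw [garc_AB hu hw, garc_BA hw hu]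
    · rw [garc_AB hu hw, garc_BA hw hu]; simp
  · -- tangent
    intro a b hab
    rcases adj_cases hab with ⟨ha, hb, gab⟩ | ⟨ha, hb, gab⟩ | ⟨rfl, rfl⟩ | ⟨rfl, rfl⟩
    · rw [garc_AA ha hb]; exact h₁.tangent a b gab
    · rw [garc_BB ha hb]
      obtain ⟨d, hd, hder⟩ := h₂.tangent a b gab
      obtain ⟨m, hm, hαd⟩ := g.αder (arc₂ a b 0) (arc_mem gab (by simp))
      exact ⟨m * d, mul_ne_zero hm hd, hαd.comp_hasDerivWithinAt 0 hder⟩
    · rw [garc_AB hu hw]; exact ⟨dseg, hdseg, (hseg 0).hasDerivWithinAt⟩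
    · rw [garc_BA hw hu]; exact ⟨-dseg, neg_ne_zero.mpr hdseg, (hseg' 0).hasDerivWithinAt⟩
  · -- avoid
    intro a b c hab t ht heq
    rcases adj_cases hab with ⟨ha, hb, gab⟩ | ⟨ha, hb, gab⟩ | ⟨rfl, rfl⟩ | ⟨rfl, rfl⟩
    · rw [garc_AA ha hb] at heq
      by_cases hc : c ∈ A
      · rw [gpos_A hc] at heq; exact h₁.avoid a b c gab t ht heq
      · rw [gpos_B hc] at heq
        exact absurd (heq ▸ arc_mem gab ht) (g.αout _ (pos_mem c))
    · rw [garc_BB ha hb, Function.comp_apply] at heq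
      by_cases hc : c ∈ A
      · rw [gpos_A hc] at heq
        exact absurd (heq ▸ pos_mem c) (g.αout _ (arc_mem gab ht))
      · rw [gpos_B hc] at heq
        exact h₂.avoid a b c gab t ht (g.αinj (arc_mem gab ht) (pos_mem c) heq)
    · rw [garc_AB hu hw] at heq
      by_cases hc : c ∈ A
      · rw [gpos_A hc] at heq
        have h0 := g.segA t ht (heq ▸ pos_mem c)
        rw [h0, g.seg0] at heq
        exact Or.inl (h₁.pos_inj heq).symm
      · rw [gpos_B hc] at heq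
        have h1 := g.segB t ht _ (pos_mem c) heq
        rw [h1, g.seg1] at heq
        exact Or.inr (h₂.pos_inj (g.αinj (pos_mem _) (pos_mem _) heq)).symm
    · rw [garc_BA hw hu] at heq
      by_cases hc : c ∈ A
      · rw [gpos_A hc] at heq
        have heq' : seg (1 - t) = pos₁ c := heq
        have h0 := g.segA (1 - t) (one_sub_mem' ht) (by rw [heq']; exact pos_mem c)
        rw [h0, g.seg0] at heq'
        exact Or.inr (h₁.pos_inj heq').symm
      · rw [gpos_B hc] at heq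
        have heq' : seg (1 - t) = α (pos₂ c) := heq
        have h1 := g.segB (1 - t) (one_sub_mem' ht) _ (pos_mem c) heq'
        rw [h1, g.seg1] at heq'
        exact Or.inl (h₂.pos_inj (g.αinj (pos_mem _) (pos_mem _) heq')).symm
  · -- finite
    intro a b c d hab hcd hne
    have hfin : ({pos₁ u, α (pos₂ w)} : Set ℂ).Finite := by simp
    have e2 : ∀ r ∈ Icc (0 : ℝ) 1, seg r ∈ pic G₁ pos₁ arc₁ → seg r ∈ ({pos₁ u, α (pos₂ w)} : Set ℂ) := by
      intro r hr hx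
      rw [g.segA r hr hx, g.seg0]
      simp
    have e3 : ∀ r ∈ Icc (0 : ℝ) 1, ∀ x ∈ pic G₂ pos₂ arc₂, seg r = α x →
        seg r ∈ ({pos₁ u, α (pos₂ w)} : Set ℂ) := by
      intro r hr x hx he
      rw [g.segB r hr x hx he, g.seg1]
      simp
    rcases adj_cases hab with ⟨ha, hb, gab⟩ | ⟨ha, hb, gab⟩ | ⟨ha, hb⟩ | ⟨ha, hb⟩ <;>
    rcases adj_cases hcd with ⟨hc, hd, gcd⟩ | ⟨hc, hd, gcd⟩ | ⟨hc, hd⟩ | ⟨hc, hd⟩
    · rw [garc_AA ha hb, garc_AA hc hd]
      exact h₁.finite a b c d gab gcd hne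
    · refine hfin.subset ?_
      rintro z ⟨⟨t, ht, rfl⟩, ⟨s, hs, heq⟩⟩
      rw [garc_AA ha hb, garc_BB hc hd] at heq
      have heq' : α (arc₂ c d s) = arc₁ a b t := heq
      exact absurd (by rw [heq']; exact arc_mem gab ht) (g.αout _ (arc_mem gcd hs))
    · subst hc hd
      refine hfin.subset ?_
      rintro z ⟨⟨t, ht, rfl⟩, ⟨s, hs, heq⟩⟩
      rw [garc_AA ha hb, garc_AB hu hw] at heq
      rw [garc_AA ha hb, ← heq]
      exact e2 s hs (heq.symm ▸ arc_mem gab ht)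
    · subst hc hd
      refine hfin.subset ?_
      rintro z ⟨⟨t, ht, rfl⟩, ⟨s, hs, heq⟩⟩
      rw [garc_AA ha hb, garc_BA hw hu] at heq
      have heq' : seg (1 - s) = arc₁ a b t := heq
      rw [garc_AA ha hb, ← heq']
      exact e2 (1 - s) (one_sub_mem' hs) (by rw [heq']; exact arc_mem gab ht)
    · refine hfin.subset ?_
      rintro z ⟨⟨t, ht, rfl⟩, ⟨s, hs, heq⟩⟩
      rw [garc_BB ha hb, garc_AA hc hd] at heq
      have heq' : arc₁ c d s = α (arc₂ a b t) := heq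
      exact absurd (by rw [← heq']; exact arc_mem gcd hs) (g.αout _ (arc_mem gab ht))
    · refine ((h₂.finite a b c d gab gcd hne).image α).subset ?_
      rintro z ⟨⟨t, ht, rfl⟩, ⟨s, hs, heq⟩⟩
      rw [garc_BB ha hb, garc_BB hc hd] at heq
      rw [garc_BB ha hb]
      have h1 : arc₂ c d s = arc₂ a b t := g.αinj (arc_mem gcd hs) (arc_mem gab ht) heq
      exact ⟨arc₂ a b t, ⟨⟨t, ht, rfl⟩, ⟨s, hs, h1⟩⟩, rfl⟩
    · subst hc hd
      refine hfin.subset ?_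
      rintro z ⟨⟨t, ht, rfl⟩, ⟨s, hs, heq⟩⟩
      rw [garc_BB ha hb, garc_AB hu hw] at heq
      rw [garc_BB ha hb, ← heq]
      exact e3 s hs _ (arc_mem gab ht) heq
    · subst hc hd
      refine hfin.subset ?_
      rintro z ⟨⟨t, ht, rfl⟩, ⟨s, hs, heq⟩⟩
      rw [garc_BB ha hb, garc_BA hw hu] at heq
      rw [garc_BB ha hb, ← heq]
      exact e3 (1 - s) (one_sub_mem' hs) _ (arc_mem gab ht) heq
    · subst ha hb
      refine hfin.subset ?_
      rintro z ⟨⟨t, ht, rfl⟩, ⟨s, hs, heq⟩⟩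
      rw [garc_AA hc hd, garc_AB hu hw] at heq
      rw [garc_AB hu hw]
      exact e2 t ht (heq ▸ arc_mem gcd hs)
    · subst ha hb
      refine hfin.subset ?_
      rintro z ⟨⟨t, ht, rfl⟩, ⟨s, hs, heq⟩⟩
      rw [garc_BB hc hd, garc_AB hu hw] at heq
      rw [garc_AB hu hw]
      exact e3 t ht _ (arc_mem gcd hs) heq.symm
    · subst ha hb hc hd
      exact absurd rfl hne
    · subst ha hb hc hd
      exact absurd Sym2.eq_swap hne
    · subst ha hb
      refine hfin.subset ?_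
      rintro z ⟨⟨t, ht, rfl⟩, ⟨s, hs, heq⟩⟩
      rw [garc_AA hc hd, garc_BA hw hu] at heq
      have heq' : arc₁ c d s = seg (1 - t) := heq
      rw [garc_BA hw hu]
      exact e2 (1 - t) (one_sub_mem' ht) (by rw [← heq']; exact arc_mem gcd hs)
    · subst ha hb
      refine hfin.subset ?_
      rintro z ⟨⟨t, ht, rfl⟩, ⟨s, hs, heq⟩⟩
      rw [garc_BB hc hd, garc_BA hw hu] at heq
      rw [garc_BA hw hu]
      exact e3 (1 - t) (one_sub_mem' ht) _ (arc_mem gcd hs) heq.symm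
    · subst ha hb hc hd
      exact absurd Sym2.eq_swap hne
    · subst ha hb hc hd
      exact absurd rfl hne
  · -- notriple
    intro a b c d e f t s r h1 h2
    rcases cross_cases g h1 with ⟨_, _, _, _, k1⟩ | ⟨ha, _, _, _, k1⟩ <;>
    rcases cross_cases g h2 with ⟨ha', _, _, _, k2⟩ | ⟨ha', _, _, _, k2⟩
    · exact h₁.notriple a b c d e f t s r k1 k2
    · exact absurd ‹a ∈ A› ha'
    · exact absurd ha' ha
    · exact h₂.notriple a b c d e f t s r k1 k2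
  · -- transverse
    intro a b c d t s h1
    rcases cross_cases g h1 with ⟨ha, hb, hc, hd, k⟩ | ⟨ha, hb, hc, hd, k⟩
    · rw [garc_AA ha hb, garc_AA hc hd]
      exact h₁.transverse a b c d t s k
    · obtain ⟨p, q, hp, hq, hpq⟩ := h₂.transverse a b c d t s k
      obtain ⟨m, hm, hαd⟩ := g.αder (arc₂ a b t) (arc_mem k.1 (Ioo_subset_Icc_self k.2.2.2.1))
      have hαd' : HasDerivAt α m (arc₂ c d s) := k.2.2.2.2.2 ▸ hαd
      rw [garc_BB ha hb, garc_BB hc hd]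
      refine ⟨m * p, m * q, hαd.comp t hp, hαd'.comp s hq, ?_⟩
      rw [im_scale]
      exact mul_ne_zero (by simpa [Complex.normSq_eq_zero] using hm) hpq
  · -- fanI
    intro a b c d e f t s t' s' h1 h2
    rcases cross_cases g h1 with ⟨ha, _, _, _, k1⟩ | ⟨ha, _, _, _, k1⟩ <;>
    rcases cross_cases g h2 with ⟨ha', _, _, _, k2⟩ | ⟨ha', _, _, _, k2⟩
    · exact h₁.fanI a b c d e f t s t' s' k1 k2
    · exact absurd ha ha'
    · exact absurd ha' ha
    · exact h₂.fanI a b c d e f t s t' s' k1 k2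
  · -- fanII
    intro a b c d v t s t' s' hcd h1 h2 p q p' q' hp hq hp' hq'
    rcases cross_cases g h1 with ⟨ha, hb, hc, hv, k1⟩ | ⟨ha, hb, hc, hv, k1⟩ <;>
    rcases cross_cases g h2 with ⟨ha', hb', hd, hv', k2⟩ | ⟨ha', hb', hd, hv', k2⟩
    · rw [garc_AA ha hb] at hp hp'
      rw [garc_AA hc hv] at hq
      rw [garc_AA hd hv] at hq'
      exact h₁.fanII a b c d v t s t' s' hcd k1 k2 p q p' q' hp hq hp' hq'
    · exact absurd ha ha'
    · exact absurd ha' ha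
    · rw [garc_BB ha hb] at hp hp'
      rw [garc_BB hc hv] at hq
      rw [garc_BB hd hv] at hq'
      obtain ⟨p1, q1, hp1, hq1, _⟩ := h₂.transverse a b c v t s k1
      obtain ⟨p2, q2, hp2, hq2, _⟩ := h₂.transverse a b d v t' s' k2
      obtain ⟨m, hm, hαd⟩ := g.αder (arc₂ a b t) (arc_mem k1.1 (Ioo_subset_Icc_self k1.2.2.2.1))
      have hαd' : HasDerivAt α m (arc₂ c v s) := k1.2.2.2.2.2 ▸ hαd
      obtain ⟨m', hm', hβd⟩ := g.αder (arc₂ a b t') (arc_mem k2.1 (Ioo_subset_Icc_self k2.2.2.2.1))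
      have hβd' : HasDerivAt α m' (arc₂ d v s') := k2.2.2.2.2.2 ▸ hβd
      rw [hp.unique (hαd.comp t hp1), hq.unique (hαd'.comp s hq1), hp'.unique (hβd.comp t' hp2),
        hq'.unique (hβd'.comp s' hq2), im_scale, im_scale]
      have h3 := h₂.fanII a b c d v t s t' s' hcd k1 k2 p1 q1 p2 q2 hp1 hq1 hp2 hq2
      have n1 : 0 < Complex.normSq m := Complex.normSq_pos.mpr hm
      have n2 : 0 < Complex.normSq m' := Complex.normSq_pos.mpr hm'
      have : Complex.normSq m * (starRingEnd ℂ p1 * q1).im * (Complex.normSq m' * (starRingEnd ℂ p2 * q2).im) =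
        (Complex.normSq m * Complex.normSq m') * ((starRingEnd ℂ p1 * q1).im * (starRingEnd ℂ p2 * q2).im) := by
        ring
      rw [this]
      positivity

end Pool.Agent.H92.FP
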