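import Mathlib

set_option autoImplicit false

namespace Pool.Agent.H92.FP

/-- The map which puts a drawing into a narrow sector. -/
noncomputable def rootMap (pu pw η₁ η₂ : ℂ) (ρ : ℝ) (k : ℕ) (z : ℂ) : ℂ :=
  pu + ρ * η₁ * ((z - pw) / (z - pw - η₂)) ^ ((k : ℂ)⁻¹)

end Pool.Agent.H92.FP
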