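import Pool.Agent.H92.FP.Defs

set_option autoImplicit false

namespace Pool.Agent.H92.FP

open Set Filter Topology

variable {V : Type} {G : SimpleGraph V} {pos : V → ℂ} {arc : V → V → ℝ → ℂ}

/-- The drawing as a subset of the plane. -/
def pic (G : SimpleGraph V) (pos : V → ℂ) (arc : V → V → ℝ → ℂ) : Set ℂ :=
  range pos ∪ ⋃ a, ⋃ b, {z | G.Adj a b ∧ z ∈ arc a b '' Icc (0 : ℝ) 1}

lemma pic_compact [Finite V] (h : FanDrawing G pos arc) : IsCompact (pic G pos arc) := by
  classical
  refine (finite_range pos).isCompact.union ?_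
  refine isCompact_iUnion fun a => isCompact_iUnion fun b => ?_
  by_cases hab : G.Adj a b
  · have : {z | G.Adj a b ∧ z ∈ arc a b '' Icc (0 : ℝ) 1} = arc a b '' Icc (0 : ℝ) 1 := by
      ext z; simp [hab]
    rw [this]
    exact isCompact_Icc.image_of_continuousOn (h.cont a b hab)
  · have : {z | G.Adj a b ∧ z ∈ arc a b '' Icc (0 : ℝ) 1} = ∅ := by
      ext z; simp [hab]
    rw [this]
    exact isCompact_empty

lemma pos_mem (v : V) : pos v ∈ pic G pos arc := Or.inl ⟨v, rfl⟩

lemma arc_mem {a b : V} (hab : G.Adj a b) {t : ℝ} (ht : t ∈ Icc (0 : ℝ) 1) : arc a b t ∈ pic G pos arc := by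
  refine Or.inr ?_
  simp only [mem_iUnion]
  exact ⟨a, b, hab, t, ht, rfl⟩

/-- A ray which is not tangent to the edge leaves it at once. -/
lemma ray_edge (h : FanDrawing G pos arc) {u b : V} (hub : G.Adj u b) {η : ℂ}
    (hη : η ≠ 0)
    (hd : ∀ d : ℂ, HasDerivWithinAt (arc u b) d (Icc 0 1) 0 → d ≠ 0 → (starRingEnd ℂ η * d).im ≠ 0) :
    ∀ᶠ s : ℝ in 𝓝[>] 0, pos u + s * η ∉ arc u b '' Icc (0 : ℝ) 1 := by
  obtain ⟨d, hd0, hder⟩ := h.tangent u b hub
  have hcr := hd d hder hd0
  have h1 := (hasDerivWithinAt_iff_tendsto_slope.mp hder)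
  have h2 : ∀ᶠ z in 𝓝 d, (starRingEnd ℂ η * z).im ≠ 0 := by
    have : Continuous fun z : ℂ => (starRingEnd ℂ η * z).im := by fun_prop
    exact this.continuousAt.eventually_ne hcr
  have h3 := h1.eventually h2
  rw [eventually_nhdsWithin_iff, Metric.eventually_nhds_iff] at h3
  obtain ⟨τ, hτ, h4⟩ := h3
  -- the part with t ≥ τ
  have h5 : ∀ᶠ s : ℝ in 𝓝[>] 0, pos u + s * η ∉ arc u b '' (Icc (0 : ℝ) 1 ∩ Ici τ) := by
    have hc : IsCompact (arc u b '' (Icc (0 : ℝ) 1 ∩ Ici τ)) := by
      refine IsCompact.image_of_continuousOn ?_ ((h.cont u b hub).mono inter_subset_left)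
      exact isCompact_Icc.inter_right isClosed_Ici
    have hn : pos u ∉ arc u b '' (Icc (0 : ℝ) 1 ∩ Ici τ) := by
      rintro ⟨t, ⟨ht, ht2⟩, h6⟩
      have : arc u b t = arc u b 0 := by rw [h6, h.start u b hub]
      have := h.inj u b hub ht (by simp) this
      have ht2' : τ ≤ t := ht2
      linarith
    have ho := hc.isClosed.isOpen_compl
    have hcont : Tendsto (fun s : ℝ => pos u + s * η) (𝓝[>] 0) (𝓝 (pos u)) := by
      have : Continuous fun s : ℝ => pos u + s * η := by fun_prop
      have h7 := this.tendsto 0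
      simp only [Complex.ofReal_zero, zero_mul, add_zero] at h7
      exact h7.mono_left nhdsWithin_le_nhds
    exact hcont.eventually (ho.mem_nhds hn)
  filter_upwards [h5, self_mem_nhdsWithin] with s hs hs0
  rintro ⟨t, ht, hts⟩
  have hs0' : (0 : ℝ) < s := hs0
  by_cases htτ : τ ≤ t
  · exact hs ⟨t, ⟨ht, htτ⟩, hts⟩
  · push Not at htτ
    have ht0 : t ≠ 0 := by
      rintro rfl
      rw [h.start u b hub] at hts
      have : (s : ℂ) * η = 0 := by linear_combination -hts
      rcases mul_eq_zero.mp this with h8 | h8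
      · exact hs0'.ne' (by exact_mod_cast h8)
      · exact hη h8
    have htp : 0 < t := lt_of_le_of_ne ht.1 (Ne.symm ht0)
    have h9 := h4 (y := t) (by rw [Real.dist_eq, sub_zero, abs_of_pos htp]; exact htτ) ⟨ht, by simpa using ht0⟩
    apply h9
    rw [slope_def_module, hts, h.start u b hub]
    have : (starRingEnd ℂ η * ((t - 0)⁻¹ • (pos u + s * η - pos u))) =
        ((t⁻¹ * s * Complex.normSq η : ℝ) : ℂ) := by
      rw [sub_zero, Complex.real_smul]
      push_cast
      rw [Complex.normSq_eq_conj_mul_self]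
      ring
    rw [this]
    exact Complex.ofReal_im _

lemma exists_dir [Finite V] (dd : V → ℂ) : ∃ η : ℂ, η ≠ 0 ∧ ∀ b, dd b ≠ 0 → (starRingEnd ℂ η * dd b).im ≠ 0 := by
  classical
  have hfin : (range fun b => (dd b).im / (dd b).re).Finite := finite_range _
  obtain ⟨x, hx⟩ := hfin.infinite_compl.nonempty
  refine ⟨⟨1, x⟩, ?_, ?_⟩
  · intro h0
    have := congrArg Complex.re h0
    simp at this
  · intro b hb h0
    simp only [Complex.mul_im, Complex.conj_re, Complex.conj_im] at h0
    by_cases hre : (dd b).re = 0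
    · rw [hre] at h0
      apply hb
      apply Complex.ext
      · exact hre
      · simpa using h0
    · apply hx
      refine ⟨b, ?_⟩
      field_simp
      linarith

/-- The free segment at a vertex. -/
lemma free_seg [Finite V] (h : FanDrawing G pos arc) (u : V) :
    ∃ η : ℂ, η ≠ 0 ∧ ∀ s : ℝ, 0 < s → s ≤ 1 → pos u + s * η ∉ pic G pos arc := by
  classical
  -- directions of the tangents
  let dd : V → ℂ := fun b => if hb : G.Adj u b then (h.tangent u b hb).choose else 0
  obtain ⟨η, hη, hdir⟩ := exists_dir dd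
  have hcont : Tendsto (fun s : ℝ => pos u + s * η) (𝓝[>] 0) (𝓝 (pos u)) := by
    have : Continuous fun s : ℝ => pos u + s * η := by fun_prop
    have h7 := this.tendsto 0
    simp only [Complex.ofReal_zero, zero_mul, add_zero] at h7
    exact h7.mono_left nhdsWithin_le_nhds
  have hE : ∀ b, G.Adj u b → ∀ᶠ s : ℝ in 𝓝[>] 0, pos u + s * η ∉ arc u b '' Icc (0 : ℝ) 1 := by
    intro b hub
    refine ray_edge h hub hη ?_
    intro d hder hd0
    have h1 := (h.tangent u b hub).choose_spec
    have h2 : dd b = (h.tangent u b hub).choose := by simp [dd, hub]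
    have hu : UniqueDiffWithinAt ℝ (Icc (0 : ℝ) 1) 0 := (uniqueDiffOn_Icc one_pos) 0 (by simp)
    have h3 : d = (h.tangent u b hub).choose := hu.eq_deriv _ hder h1.2
    rw [h3, ← h2]
    apply hdir
    rw [h2]
    exact h1.1
  have hall : ∀ a b, ∀ᶠ s : ℝ in 𝓝[>] 0, G.Adj a b → pos u + s * η ∉ arc a b '' Icc (0 : ℝ) 1 := by
    intro a b
    by_cases hab : G.Adj a b
    · by_cases hau : a = u
      · subst hau
        filter_upwards [hE b hab] with s hs _ using hs
      · by_cases hbu : b = u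
        · subst hbu
          filter_upwards [hE a hab.symm] with s hs _
          rintro ⟨t, ht, hts⟩
          refine hs ⟨1 - t, ⟨by linarith [ht.2], by linarith [ht.1]⟩, ?_⟩
          rw [← hts, h.rev b a hab.symm t ht]
        · have hc : IsCompact (arc a b '' Icc (0 : ℝ) 1) := isCompact_Icc.image_of_continuousOn (h.cont a b hab)
          have hn : pos u ∉ arc a b '' Icc (0 : ℝ) 1 := by
            rintro ⟨t, ht, h6⟩
            rcases h.avoid a b u hab t ht h6 with h7 | h7
            · exact hau h7.symm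
            · exact hbu h7.symm
          filter_upwards [hcont.eventually (hc.isClosed.isOpen_compl.mem_nhds hn)] with s hs _ using hs
    · exact Eventually.of_forall fun s hab' => absurd hab' hab
  have hver : ∀ v, ∀ᶠ s : ℝ in 𝓝[>] 0, pos u + s * η ≠ pos v := by
    intro v
    by_cases hv : v = u
    · subst hv
      filter_upwards [self_mem_nhdsWithin] with s hs h0
      have hs' : (0 : ℝ) < s := hs
      have : (s : ℂ) * η = 0 := by linear_combination h0
      rcases mul_eq_zero.mp this with h8 | h8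
      · exact hs'.ne' (by exact_mod_cast h8)
      · exact hη h8
    · exact hcont.eventually (isOpen_ne.mem_nhds (fun h0 => hv (h.pos_inj h0.symm)))
  have hev : ∀ᶠ s : ℝ in 𝓝[>] 0, pos u + s * η ∉ pic G pos arc := by
    have h1 : ∀ᶠ s : ℝ in 𝓝[>] 0, ∀ a b, G.Adj a b → pos u + s * η ∉ arc a b '' Icc (0 : ℝ) 1 :=
      eventually_all.mpr fun a => eventually_all.mpr fun b => hall a b
    have h2 : ∀ᶠ s : ℝ in 𝓝[>] 0, ∀ v, pos u + s * η ≠ pos v := eventually_all.mpr hver
    filter_upwards [h1, h2] with s hs1 hs2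
    rintro (⟨v, hv⟩ | hmem)
    · exact hs2 v hv.symm
    · simp only [mem_iUnion] at hmem
      obtain ⟨a, b, hab, hz⟩ := hmem
      exact hs1 a b hab hz
  rw [eventually_nhdsWithin_iff, Metric.eventually_nhds_iff] at hev
  obtain ⟨ε, hε, hev⟩ := hev
  refine ⟨((ε / 2 : ℝ) : ℂ) * η, mul_ne_zero (by exact_mod_cast (half_pos hε).ne') hη, ?_⟩
  intro s hs0 hs1
  have h5 := hev (y := s * (ε / 2)) (by
    rw [Real.dist_eq, sub_zero, abs_of_pos (by positivity)]
    nlinarith) (show (0 : ℝ) < s * (ε / 2) by positivity)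
  intro hmem
  apply h5
  convert hmem using 2
  push_cast
  ring

end Pool.Agent.H92.FP
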